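import Pool.Agent.Lib_MP_22d2c8_sym.Seq

/-!
# The level function

`lev g` = the largest number of shared gates in a list `p` of big gates outside `X` such that
`p ++ [g]` is a directed path.
-/

namespace Pool.Agent.Lib_MP_22d2c8_sym

open Finset

namespace Circuit

theorem exists_lev {W U : Type} (C : Circuit (W ⊕ U)) (K d : ℕ) (X : Finset C.Gate)
    (h : C.SharingDepthLE K X d) : ∃ lev : C.Gate → ℕ, C.IsLev K X d lev := by
  classical
  let S : C.Gate → Set ℕ := fun g => {n | ∃ p : List C.Gate,
    (p ++ [g]).IsChain (fun h g => ∃ s, C.src g s = Sum.inr h) ∧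
    (∀ a ∈ p, C.Big K a ∧ a ∉ X) ∧ p.countP (fun g => decide (C.Shared K g)) = n}
  have hb : ∀ g, BddAbove (S g) := by
    intro g
    refine ⟨d, ?_⟩
    rintro n ⟨p, hp, hq, rfl⟩
    exact h p ⟨(List.isChain_append.1 hp).1, hq⟩
  have hne : ∀ g, (S g).Nonempty := by
    intro g
    exact ⟨0, [], by simp, by simp, rfl⟩
  have hmem : ∀ g, sSup (S g) ∈ S g := fun g => Nat.sSup_mem (hne g) (hb g)
  refine ⟨fun g => sSup (S g), ?_, ?_⟩
  · intro g s a hg ha haX hs
    obtain ⟨p, hp, hq, hc⟩ := hmem a
    have hpg : ((p ++ [a]) ++ [g]).IsChain (fun h g => ∃ s, C.src g s = Sum.inr h) := by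
      rw [List.isChain_append]
      refine ⟨hp, by simp, ?_⟩
      intro x hx y hy
      have hx' : x = a := by simpa [eq_comm] using hx
      have hy' : y = g := by simpa [eq_comm] using hy
      subst hx' hy'
      exact ⟨s, hs⟩
    have hle : (p ++ [a]).countP (fun g => decide (C.Shared K g)) ≤ sSup (S g) := by
      refine le_csSup (hb g) ⟨p ++ [a], hpg, ?_, rfl⟩
      intro b hb'
      rcases List.mem_append.1 hb' with h1 | h1
      · exact hq b h1
      · have : b = a := by simpa using h1
        subst this
        exact ⟨ha, haX⟩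
    rw [List.countP_append] at hle
    change sSup (S a) ≤ sSup (S g) ∧ (C.Shared K a → sSup (S a) < sSup (S g))
    rw [hc] at hle
    refine ⟨le_trans (Nat.le_add_right _ _) hle, fun hsh => ?_⟩
    have h1 : [a].countP (fun g => decide (C.Shared K g)) = 1 := by
      simp [hsh]
    rw [h1] at hle
    exact hle
  · intro g hg hgX hsh
    obtain ⟨p, hp, hq, hc⟩ := hmem g
    have h1 := h (p ++ [g]) ⟨hp, by
      intro b hb'
      rcases List.mem_append.1 hb' with h1 | h1
      · exact hq b h1
      · have : b = g := by simpa using h1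
        subst this
        exact ⟨hg, hgX⟩⟩
    rw [List.countP_append] at h1
    have h2 : [g].countP (fun g => decide (C.Shared K g)) = 1 := by
      simp [hsh]
    rw [hc, h2] at h1
    exact h1

end Circuit

end Pool.Agent.Lib_MP_22d2c8_sym
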