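import Pool.Agent.Lib_MP_22d2c8_sym.Defs

/-!
# Programs of bounded width

`Comp rd L N F`: the function `F` on `X` is computed by a program that reads the letters of the list
`L` one after the other (`rd x v` is the bit that the letter `v` shows on `x`) and has at most `N`
states: `σ i x` is the state after the first `i` letters.
-/

namespace Pool.Agent.Lib_MP_22d2c8_sym

/-- `F` is computed by a program reading the list `L` with at most `N` states. -/
def Comp {X W γ : Type} (rd : X → W → Bool) (L : List W) (N : ℕ) (F : X → γ) : Prop :=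
  ∃ σ : ℕ → X → ℕ, (∀ i x, σ i x < N) ∧ (∀ x y, σ 0 x = σ 0 y) ∧
    (∀ i, ∀ h : i < L.length, ∀ x y, σ i x = σ i y → rd x L[i] = rd y L[i] →
      σ (i + 1) x = σ (i + 1) y) ∧
    (∀ x y, σ L.length x = σ L.length y → F x = F y)

namespace Comp

variable {X W γ δ : Type} {rd : X → W → Bool} {L L₁ L₂ : List W} {N N' N₁ N₂ : ℕ}

theorem const {F : X → γ} (hN : 0 < N) (h : ∀ x y, F x = F y) : Comp rd [] N F := by
  refine ⟨fun _ _ => 0, fun _ _ => hN, fun _ _ => rfl, ?_, fun x y _ => h x y⟩
  intro i hi
  simp at hi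

theorem mono {F : X → γ} (h : Comp rd L N F) (hN : N ≤ N') : Comp rd L N' F := by
  obtain ⟨σ, h1, h2, h3, h4⟩ := h
  exact ⟨σ, fun i x => lt_of_lt_of_le (h1 i x) hN, h2, h3, h4⟩

theorem map {F : X → γ} (h : Comp rd L N F) (f : γ → δ) : Comp rd L N (fun x => f (F x)) := by
  obtain ⟨σ, h1, h2, h3, h4⟩ := h
  exact ⟨σ, h1, h2, h3, fun x y hxy => congrArg f (h4 x y hxy)⟩

theorem one (v : W) : Comp rd [v] 2 (fun x => rd x v) := by
  refine ⟨fun i x => if i = 0 then 0 else if rd x v then 1 else 0, ?_, ?_, ?_, ?_⟩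
  · intro i x
    dsimp only
    split_ifs <;> omega
  · intro x y
    simp
  · intro i hi x y _ h2
    have hi0 : i = 0 := by
      simp only [List.length_cons, List.length_nil] at hi
      omega
    subst hi0
    simp only [List.getElem_cons_zero] at h2
    simp [h2]
  · intro x y h
    dsimp only
    simp only [List.length_cons, List.length_nil, Nat.zero_add, one_ne_zero, if_false] at h
    cases hx : rd x v <;> cases hy : rd y v <;> simp [hx, hy] at h ⊢

theorem det {F : X → γ} (h : ∀ x y, (∀ v ∈ L, rd x v = rd y v) → F x = F y) :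
    Comp rd L (2 ^ L.length) F := by
  have hcard : Fintype.card (Fin L.length → Bool) = 2 ^ L.length := by
    rw [Fintype.card_fun, Fintype.card_bool, Fintype.card_fin]
  let e : (Fin L.length → Bool) ≃ Fin (2 ^ L.length) := Fintype.equivFinOfCardEq hcard
  let w : ℕ → X → Fin L.length → Bool := fun i x j => if j.1 < i then rd x (L[j.1]'j.2) else false
  have hw : ∀ i x y, (e (w i x)).1 = (e (w i y)).1 → w i x = w i y := by
    intro i x y hxy
    exact e.injective (Fin.ext hxy)
  refine ⟨fun i x => (e (w i x)).1, fun i x => (e (w i x)).2, ?_, ?_, ?_⟩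
  · intro x y
    have : w 0 x = w 0 y := by
      funext j
      simp [w]
    simp only [this]
  · intro i hi x y hxy hl
    have h1 := hw i x y hxy
    have : w (i + 1) x = w (i + 1) y := by
      funext j
      by_cases hj : j.1 < i
      · have h2 := congrFun h1 j
        simp only [w, hj, if_true] at h2
        simp only [w]
        rw [if_pos (by omega), if_pos (by omega)]
        exact h2
      · by_cases hj2 : j.1 = i
        · simp only [w]
          rw [if_pos (by omega), if_pos (by omega)]
          have : ∀ z : X, rd z (L[j.1]'j.2) = rd z (L[i]'hi) := by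
            intro z
            congr 1
            congr 1
          rw [this x, this y]
          exact hl
        · simp only [w]
          rw [if_neg (by omega), if_neg (by omega)]
    simp only [this]
  · intro x y hxy
    apply h
    intro v hv
    obtain ⟨j, hj, hjv⟩ := List.getElem_of_mem hv
    have h2 := congrFun (hw L.length x y hxy) ⟨j, hj⟩
    simp only [w, hj, if_true] at h2
    rw [← hjv]
    exact h2

theorem of_det {F : X → γ} (h : Comp rd L N F) {G : X → δ} (hG : ∀ x y, F x = F y → G x = G y) :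
    Comp rd L N G := by
  obtain ⟨σ, h1, h2, h3, h4⟩ := h
  exact ⟨σ, h1, h2, h3, fun x y hxy => hG x y (h4 x y hxy)⟩

theorem app {γ₁ γ₂ : Type} {F₁ : X → γ₁} {F₂ : X → γ₂} {w : ℕ} (c : γ₁ → ℕ)
    (hc : ∀ x, c (F₁ x) < w) (hinj : ∀ x y, c (F₁ x) = c (F₁ y) → F₁ x = F₁ y)
    (h₁ : Comp rd L₁ N₁ F₁) (h₂ : Comp rd L₂ N₂ F₂) {F : X → γ}
    (hF : ∀ x y, F₁ x = F₁ y → F₂ x = F₂ y → F x = F y) :
    Comp rd (L₁ ++ L₂) (max N₁ (w * N₂)) F := by
  obtain ⟨σ₁, a1, a2, a3, a4⟩ := h₁
  obtain ⟨σ₂, b1, b2, b3, b4⟩ := h₂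
  have key : ∀ p q u v : ℕ, u < w → v < w → w * p + u = w * q + v → p = q ∧ u = v := by
    intro p q u v hu hv h
    have hw : 0 < w := by omega
    have h1 : (w * p + u) / w = p := by
      rw [Nat.mul_add_div hw, Nat.div_eq_of_lt hu, Nat.add_zero]
    have h2 : (w * q + v) / w = q := by
      rw [Nat.mul_add_div hw, Nat.div_eq_of_lt hv, Nat.add_zero]
    have h3 : p = q := by
      rw [← h1, ← h2, h]
    subst h3
    exact ⟨rfl, Nat.add_left_cancel h⟩
  refine ⟨fun i x => if i ≤ L₁.length then σ₁ i x else
    w * σ₂ (i - L₁.length) x + c (F₁ x), ?_, ?_, ?_, ?_⟩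
  · intro i x
    have h1 := a1 i x
    have h2 := b1 (i - L₁.length) x
    have h3 := le_max_left N₁ (w * N₂)
    have h4 := le_max_right N₁ (w * N₂)
    have h5 := hc x
    have h6 : w * σ₂ (i - L₁.length) x + w ≤ w * N₂ := by
      calc w * σ₂ (i - L₁.length) x + w = w * (σ₂ (i - L₁.length) x + 1) := by ring
        _ ≤ w * N₂ := Nat.mul_le_mul_left _ h2
    dsimp only
    split_ifs <;> omega
  · intro x y
    simp only [Nat.zero_le, if_true]
    exact a2 x y
  · intro i hi x y hxy hl
    dsimp only at hxy ⊢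
    rw [List.length_append] at hi
    by_cases c1 : i + 1 ≤ L₁.length
    · rw [if_pos c1, if_pos c1]
      rw [if_pos (by omega), if_pos (by omega)] at hxy
      have c2 : i < L₁.length := by omega
      rw [List.getElem_append_left c2] at hl
      exact a3 i c2 x y hxy hl
    · have c3 : L₁.length ≤ i := by omega
      rw [List.getElem_append_right c3] at hl
      have c4 : i - L₁.length < L₂.length := by omega
      have c5 : i + 1 - L₁.length = (i - L₁.length) + 1 := by omega
      have both : σ₂ (i - L₁.length) x = σ₂ (i - L₁.length) y ∧ F₁ x = F₁ y := by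
        by_cases c6 : i ≤ L₁.length
        · have c7 : i = L₁.length := by omega
          rw [if_pos c6, if_pos c6] at hxy
          subst c7
          refine ⟨?_, a4 x y hxy⟩
          rw [Nat.sub_self]
          exact b2 x y
        · rw [if_neg c6, if_neg c6] at hxy
          have h := key _ _ _ _ (hc x) (hc y) hxy
          exact ⟨h.1, hinj x y h.2⟩
      rw [if_neg c1, if_neg c1, c5, both.2, b3 (i - L₁.length) c4 x y both.1 hl]
  · intro x y hxy
    dsimp only at hxy
    rw [List.length_append] at hxy
    have both : F₂ x = F₂ y ∧ F₁ x = F₁ y := by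
      by_cases c8 : L₂.length = 0
      · rw [c8, Nat.add_zero, if_pos (le_refl _), if_pos (le_refl _)] at hxy
        refine ⟨b4 x y ?_, a4 x y hxy⟩
        rw [c8]
        exact b2 x y
      · have c3 : ¬ (L₁.length + L₂.length ≤ L₁.length) := by omega
        rw [if_neg c3, if_neg c3] at hxy
        have c2 : L₁.length + L₂.length - L₁.length = L₂.length := by omega
        rw [c2] at hxy
        have h := key _ _ _ _ (hc x) (hc y) hxy
        exact ⟨b4 x y h.1, hinj x y h.2⟩
    exact hF x y both.2 both.1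

theorem append {F₁ F₂ : X → Bool} (h₁ : Comp rd L₁ N₁ F₁) (h₂ : Comp rd L₂ N₂ F₂)
    (f : Bool → Bool → γ) : Comp rd (L₁ ++ L₂) (max N₁ (2 * N₂)) (fun x => f (F₁ x) (F₂ x)) := by
  refine app (fun b : Bool => if b then 1 else 0) (fun x => ?_) (fun x y h => ?_) h₁ h₂
    (fun x y h1 h2 => ?_)
  · cases F₁ x <;> simp
  · cases hx : F₁ x <;> cases hy : F₁ y <;> simp [hx, hy] at h ⊢
  · simp only [h1, h2]

theorem isConst {F : X → γ} (h : Comp rd L N F) (hc : ∀ v ∈ L, ∀ x y, rd x v = rd y v) :
    ∀ x y, F x = F y := by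
  obtain ⟨σ, _, h2, h3, h4⟩ := h
  intro x y
  have key : ∀ i, i ≤ L.length → σ i x = σ i y := by
    intro i
    induction i with
    | zero => intro _; exact h2 x y
    | succ i ih =>
      intro hi
      exact h3 i hi x y (ih (by omega)) (hc _ (List.getElem_mem _) x y)
  exact h4 x y (key _ le_rfl)

end Comp

end Pool.Agent.Lib_MP_22d2c8_sym
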