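import Pool.Agent.Lib_MP_22d2c8_sym.Seq

/-!
# Guessed evaluation of the circuit by a program that reads the sequences

Setting: `e : Y → (W ⊕ U → Bool)` a family of inputs in which only the bits in `Act` vary, and no bit
of `Act` occurs in the reading sequence of a mid gate. Every big gate has at most `w` subfunctions on
each set of its arguments.
-/

namespace Pool.Agent.Lib_MP_22d2c8_sym

open Finset

namespace Circuit

variable {W U : Type} (C : Circuit (W ⊕ U)) (K w : ℕ) (X : Finset C.Gate)
  (lev : C.Gate → ℕ) (th : ℕ → ℕ) (Θ : ℕ)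
variable {Y : Type} (e : Y → W ⊕ U → Bool) (Act : Set W)

private theorem Eval_wd (hw : 1 ≤ w) {l M : ℕ} (hl : l ≤ M) :
    wd K w l ≤ 2 ^ (K + 1) * w ^ (Nat.log 2 M + 1) := by
  unfold wd
  split_ifs with h
  · exact Nat.mul_pos (by positivity) (by positivity)
  · exact Nat.mul_le_mul_left _ (Nat.pow_le_pow_right hw (by
      have := Nat.log_mono_right (b := 2) hl
      omega))

private theorem Eval_ref (hw : 1 ≤ w) (hU : ∀ x y u, e x (Sum.inr u) = e y (Sum.inr u))
    (hW : ∀ v, v ∉ Act → ∀ x y, e x (Sum.inl v) = e y (Sum.inl v))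
    (hmid : ∀ h ∈ C.mids K X lev th Θ, ∀ v ∈ C.seq K X lev th h, v ∉ Act)
    (z : C.Gate → Bool) (h : C.Gate)
    (hg : C.Big K h → Comp (fun x v => e x (Sum.inl v)) (C.seq K X lev th h)
      (wd K w (C.seq K X lev th h).length) (fun x => C.gval K X lev th Θ z (e x) h)) :
    Comp (fun x v => e x (Sum.inl v)) (C.rseq K X lev th h) (wd K w (C.rseq K X lev th h).length)
      (fun x => C.rval K X lev th Θ z (e x) h) := by
  classical
  have h0 : 0 < wd K w ([] : List W).length := by
    unfold wd
    rw [if_pos (List.length_nil)]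
    exact Nat.one_pos
  by_cases hs : C.Small K h
  · have e1 : C.rseq K X lev th h = C.loc K h := by
      unfold rseq
      rw [if_pos hs]
    have e2 : (fun x => C.rval K X lev th Θ z (e x) h) = fun x => C.val (e x) h := by
      funext x
      unfold rval
      rw [if_pos hs]
    rw [e1, e2]
    have h1 : Comp (fun x v => e x (Sum.inl v)) (C.loc K h) (2 ^ (C.loc K h).length)
        (fun x => C.val (e x) h) :=
      Comp.det fun x y hxy => C.loc_det K hs (e x) (e y) hxy (hU x y)
    refine h1.mono ?_
    have h2 := C.loc_length K h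
    unfold wd
    split_ifs with h3
    · rw [h3, pow_zero]
    · calc 2 ^ (C.loc K h).length ≤ 2 ^ (K + 1) := Nat.pow_le_pow_right (by norm_num) (by omega)
        _ = 2 ^ (K + 1) * 1 := (mul_one _).symm
        _ ≤ 2 ^ (K + 1) * w ^ (Nat.log 2 (C.loc K h).length + 1) :=
          Nat.mul_le_mul_left _ (Nat.one_le_pow _ _ hw)
  · by_cases hX : h ∈ X
    · have e1 : C.rseq K X lev th h = [] := by
        unfold rseq
        rw [if_neg hs, if_pos (Or.inl hX)]
      rw [e1]
      refine Comp.const h0 ?_
      have hL : C.Guessed K X lev th Θ h := ⟨hs, Or.inl hX⟩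
      intro x y
      unfold rval
      rw [if_neg hs, if_neg hs, if_pos hL, if_pos hL]
    by_cases hc : C.Shared K h ∧ th (lev h) < (C.seq K X lev th h).length
    · have e1 : C.rseq K X lev th h = [] := by
        unfold rseq
        rw [if_neg hs, if_pos (Or.inr hc)]
      rw [e1]
      refine Comp.const h0 ?_
      by_cases hl : Θ < (C.seq K X lev th h).length
      · have hL : C.Guessed K X lev th Θ h := ⟨hs, Or.inr ⟨hs, hX, hc.1, hc.2, hl⟩⟩
        intro x y
        unfold rval
        rw [if_neg hs, if_neg hs, if_pos hL, if_pos hL]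
      · have hL : ¬ C.Guessed K X lev th Θ h := by
          rintro ⟨_, h' | h'⟩
          · exact hX h'
          · exact hl h'.2.2.2.2
        have hM : h ∈ C.mids K X lev th Θ := by
          unfold mids
          rw [mem_filter]
          exact ⟨mem_univ _, hs, hX, hc.1, hc.2, not_lt.1 hl⟩
        intro x y
        unfold rval
        rw [if_neg hs, if_neg hs, if_neg hL, if_neg hL]
        exact (hg hs).isConst (fun v hv x y => hW v (hmid h hM v hv) x y) x y
    · have e1 : C.rseq K X lev th h = C.seq K X lev th h := by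
        unfold rseq
        rw [if_neg hs, if_neg]
        rintro (h' | h')
        · exact hX h'
        · exact hc h'
      have hL : ¬ C.Guessed K X lev th Θ h := by
        rintro ⟨_, h' | h'⟩
        · exact hX h'
        · exact hc ⟨h'.2.2.1, h'.2.2.2.1⟩
      have e2 : (fun x => C.rval K X lev th Θ z (e x) h) =
          fun x => C.gval K X lev th Θ z (e x) h := by
        funext x
        unfold rval
        rw [if_neg hs, if_neg hL]
      rw [e1, e2]
      exact hg hs

theorem comp_gate (hw : 1 ≤ w) (hsub : ∀ g, C.Big K g → SubLE w (C.op g))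
    (hU : ∀ x y u, e x (Sum.inr u) = e y (Sum.inr u))
    (hW : ∀ v, v ∉ Act → ∀ x y, e x (Sum.inl v) = e y (Sum.inl v))
    (hmid : ∀ h ∈ C.mids K X lev th Θ, ∀ v ∈ C.seq K X lev th h, v ∉ Act)
    (z : C.Gate → Bool) (g : C.Gate) (hg : C.Big K g) :
    Comp (fun x v => e x (Sum.inl v)) (C.seq K X lev th g) (wd K w (C.seq K X lev th g).length)
      (fun x => C.gval K X lev th Θ z (e x) g) := by
  induction g using WellFoundedLT.induction with
  | ind g ih =>
  have key : ∀ s : (W ⊕ U) ⊕ C.Gate, (∀ h, s = Sum.inr h → h < g) →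
      Comp (fun x v => e x (Sum.inl v)) (C.sseq K X lev th s) (wd K w (C.sseq K X lev th s).length)
        (fun x => C.gsrc K X lev th Θ z (e x) s) := by
    intro s hs
    rcases s with (v | u) | h
    · have h1 : Comp (fun x v => e x (Sum.inl v)) [v] 2 (fun x => e x (Sum.inl v)) := Comp.one v
      have h2 : 2 ≤ wd K w ([v] : List W).length := by
        unfold wd
        rw [if_neg (by simp), List.length_singleton]
        calc 2 = 2 ^ 1 * 1 := by norm_num
          _ ≤ 2 ^ (K + 1) * w ^ (Nat.log 2 1 + 1) :=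
            Nat.mul_le_mul (Nat.pow_le_pow_right (by norm_num) (by omega)) (Nat.one_le_pow _ _ hw)
      exact h1.mono h2
    · have h0 : 0 < wd K w ([] : List W).length := by
        unfold wd
        rw [if_pos (List.length_nil)]
        exact Nat.one_pos
      exact Comp.const h0 fun x y => hU x y u
    · exact C.Eval_ref K w X lev th Θ e Act hw hU hW hmid z h fun hb => ih h (hs h rfl) hb
  have h1 := Comp.gate (K := K) hw (C.op g) (hsub g hg)
    (fun s => C.sseq K X lev th (C.src g s)) (fun s x => C.gsrc K X lev th Θ z (e x) (C.src g s))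
    (fun s => key (C.src g s) fun h hh => C.src_lt g s h hh)
  have e2 : (fun x => C.gval K X lev th Θ z (e x) g) =
      fun x => C.op g fun s => C.gsrc K X lev th Θ z (e x) (C.src g s) := by
    funext x
    exact C.gval_eq K X lev th Θ z (e x) g
  rw [e2, C.seq_eq K X lev th g]
  exact h1

theorem comp_ref (hw : 1 ≤ w) (hsub : ∀ g, C.Big K g → SubLE w (C.op g))
    (hU : ∀ x y u, e x (Sum.inr u) = e y (Sum.inr u))
    (hW : ∀ v, v ∉ Act → ∀ x y, e x (Sum.inl v) = e y (Sum.inl v))
    (hmid : ∀ h ∈ C.mids K X lev th Θ, ∀ v ∈ C.seq K X lev th h, v ∉ Act)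
    (z : C.Gate → Bool) (h : C.Gate) :
    Comp (fun x v => e x (Sum.inl v)) (C.rseq K X lev th h) (wd K w (C.rseq K X lev th h).length)
      (fun x => C.rval K X lev th Θ z (e x) h) :=
  C.Eval_ref K w X lev th Θ e Act hw hU hW hmid z h
    fun hb => C.comp_gate K w X lev th Θ e Act hw hsub hU hW hmid z h hb

open Classical in
theorem comp_chain (hw : 1 ≤ w) (hsub : ∀ g, C.Big K g → SubLE w (C.op g))
    (hU : ∀ x y u, e x (Sum.inr u) = e y (Sum.inr u))
    (hW : ∀ v, v ∉ Act → ∀ x y, e x (Sum.inl v) = e y (Sum.inl v))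
    (hmid : ∀ h ∈ C.mids K X lev th Θ, ∀ v ∈ C.seq K X lev th h, v ∉ Act)
    (z : C.Gate → Bool) (gs : List C.Gate) (o : C.Gate) (R : ℕ) (hb : ∀ g ∈ gs, C.Big K g)
    (hR : ∀ g ∈ gs, (C.seq K X lev th g).length ≤ R) (ho : (C.rseq K X lev th o).length ≤ R) :
    Comp (fun x v => e x (Sum.inl v)) (gs.flatMap (C.seq K X lev th) ++ C.rseq K X lev th o)
      (2 ^ (K + 2) * w ^ (Nat.log 2 R + 1))
      (fun x => (decide (∀ g ∈ gs, C.gval K X lev th Θ z (e x) g = z g),
        C.rval K X lev th Θ z (e x) o)) := by
  have hM : max (2 * (2 ^ (K + 1) * w ^ (Nat.log 2 R + 1)))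
      (2 * (2 ^ (K + 1) * w ^ (Nat.log 2 R + 1))) = 2 ^ (K + 2) * w ^ (Nat.log 2 R + 1) := by
    rw [max_self]
    ring
  have hchain : Comp (fun x v => e x (Sum.inl v)) (gs.flatMap (C.seq K X lev th))
      (2 * (2 ^ (K + 1) * w ^ (Nat.log 2 R + 1)))
      (fun x => decide (∀ g ∈ gs, C.gval K X lev th Θ z (e x) g = z g)) := by
    induction gs using List.reverseRecOn with
    | nil =>
      rw [List.flatMap_nil]
      exact Comp.const (by positivity) fun x y => by simp
    | append_singleton gs g ih =>
      have h1 := ih (fun g' hg' => hb g' (List.mem_append_left _ hg'))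
        fun g' hg' => hR g' (List.mem_append_left _ hg')
      have h2 : (C.seq K X lev th g).length ≤ R := hR g (by simp)
      have h2b : C.Big K g := hb g (by simp)
      have h3 := ((C.comp_gate K w X lev th Θ e Act hw hsub hU hW hmid z g h2b).mono
        (Eval_wd K w hw h2)).map (fun b => decide (b = z g))
      have h4 := Comp.append h1 h3 (fun a b => a && b)
      rw [max_self] at h4
      have e1 : (gs ++ [g]).flatMap (C.seq K X lev th) =
          gs.flatMap (C.seq K X lev th) ++ C.seq K X lev th g := by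
        rw [List.flatMap_append, List.flatMap_cons, List.flatMap_nil, List.append_nil]
      rw [e1]
      convert h4 using 2 with x
      rw [← Bool.decide_and]
      congr 1
      simp only [List.mem_append, List.mem_singleton]
      refine propext ⟨fun h => ⟨fun g' hg' => h g' (Or.inl hg'), h g (Or.inr rfl)⟩, ?_⟩
      rintro ⟨ha, hb⟩ g' (hg' | hg')
      · exact ha g' hg'
      · rw [hg']
        exact hb
  have h5 := (C.comp_ref K w X lev th Θ e Act hw hsub hU hW hmid z o).mono (Eval_wd K w hw ho)
  have h6 := Comp.append hchain h5 Prod.mk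
  rw [hM] at h6
  exact h6

end Circuit

end Pool.Agent.Lib_MP_22d2c8_sym
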