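import Pool.Agent.Lib_MP_22d2c8_sym.Rect

/-!
# SYM-Kernel: the kernel is small for most `t`

Proof of `sol_le` (for a fixed `a` that is nonzero on `A`): let `i₀` be the largest `i ∈ A` with
`a i = true`. The map `(t, c) ↦ t'`, `t' (ad i₀ j) = c j` for `j ∈ B` and `t' u = t u` for the other `u`, is injective
on `{t | Ker A B t a} × (B → Bool)`: `t'` gives back `c` (`j ↦ ad i₀ j` is injective) and `t` outside the
`ad i₀ j`, `j ∈ B`; two solutions `t, s` that agree there are equal: otherwise take the smallest `u` with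
`t u ≠ s u`, `u = ad i₀ j`, `j ∈ B`; in the equations number `j` all terms with `a i = true`, `i ≠ i₀` (so `i < i₀`) agree,
hence `t u = s u`. (For the count use `Fintype.card_le_of_injective`.)
`kap_sum`: exchange the sums: `∑_t kap = ∑_a #{t | Ker A B t a}`. The `a` that vanish on `A` are `2 ^ (n - |A|)` many
and contribute at most `2 ^ (2 n - 1)` each (their number times `2 ^ |A|` is `2 ^ n`), each of the others
contributes at most `2 ^ (2 n - 1)` after multiplication by `2 ^ |B| = 2 ^ |A|`.
-/

namespace Pool.Agent.Lib_MP_22d2c8_sym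

open Finset

variable {n : ℕ}

private theorem Kernel_bit_inj {p q : Bool} (h : bit p = bit q) : p = q := by
  cases p <;> cases q
  · rfl
  · exact absurd h (by decide)
  · exact absurd h (by decide)
  · rfl

private theorem Kernel_ad_inj {i j j' : Fin n} (h : ad i j = ad i j') : j = j' := by
  have h1 := congrArg Fin.val h
  unfold ad at h1
  simp only at h1
  exact Fin.ext (by omega)

/-- The entries of `t` at the positions `ad i₀ j`, `j ∈ B`, replaced by `c`. -/
private noncomputable def Kernel_f (i₀ : Fin n) (B : Finset (Fin n))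
    (t : Fin (2 * n - 1) → Bool) (c : B → Bool) : Fin (2 * n - 1) → Bool :=
  open Classical in fun u => if h : ∃ j : B, ad i₀ j.1 = u then c h.choose else t u

private theorem Kernel_f_mem (i₀ : Fin n) (B : Finset (Fin n))
    (t : Fin (2 * n - 1) → Bool) (c : B → Bool) (j : B) :
    Kernel_f i₀ B t c (ad i₀ j.1) = c j := by
  classical
  have h : ∃ j' : B, ad i₀ j'.1 = ad i₀ j.1 := ⟨j, rfl⟩
  unfold Kernel_f
  rw [dif_pos h]
  congr 1
  exact Subtype.ext (Kernel_ad_inj h.choose_spec)

private theorem Kernel_f_not (i₀ : Fin n) (B : Finset (Fin n))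
    (t : Fin (2 * n - 1) → Bool) (c : B → Bool) {u : Fin (2 * n - 1)}
    (h : ¬ ∃ j : B, ad i₀ j.1 = u) : Kernel_f i₀ B t c u = t u := by
  classical
  unfold Kernel_f
  rw [dif_neg h]

/-- two solutions that agree outside the positions `ad i₀ j`, `j ∈ B`, are equal -/
private theorem Kernel_unique (A B : Finset (Fin n)) (a : Fin n → Bool) (i₀ : Fin n)
    (hi₀ : i₀ ∈ A) (ha₀ : a i₀ = true) (hmax : ∀ i ∈ A, a i = true → i ≤ i₀)
    (t s : Fin (2 * n - 1) → Bool) (ht : Ker A B t a) (hs : Ker A B s a)
    (h : ∀ u, (¬ ∃ j : B, ad i₀ j.1 = u) → t u = s u) : t = s := by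
  classical
  have key : ∀ k : ℕ, ∀ u : Fin (2 * n - 1), u.1 = k → t u = s u := by
    intro k
    induction k using Nat.strong_induction_on with
    | _ k ih =>
      intro u hu
      by_cases hj : ∃ j : B, ad i₀ j.1 = u
      · obtain ⟨j, rfl⟩ := hj
        have h1 := ht j.1 j.2
        have h2 := hs j.1 j.2
        rw [← add_sum_erase A _ hi₀] at h1 h2
        have h3 : ∑ i ∈ A.erase i₀, bit (t (ad i j.1)) * bit (a i) =
            ∑ i ∈ A.erase i₀, bit (s (ad i j.1)) * bit (a i) := by
          refine sum_congr rfl fun i hi => ?_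
          obtain ⟨hne, hiA⟩ := mem_erase.1 hi
          by_cases hai : a i = true
          · have h4 : i < i₀ := lt_of_le_of_ne (hmax i hiA hai) hne
            have h5 : (ad i j.1).1 < k := by
              rw [← hu]
              show i.1 + j.1.1 < i₀.1 + j.1.1
              have := Fin.lt_def.1 h4
              omega
            rw [ih _ h5 (ad i j.1) rfl]
          · have h4 : a i = false := Bool.eq_false_of_not_eq_true hai
            have h5 : bit (a i) = 0 := by rw [h4]; rfl
            rw [h5, mul_zero, mul_zero]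
        have h4 : bit (a i₀) = 1 := by rw [ha₀]; rfl
        rw [h3, h4, mul_one] at h1
        rw [h4, mul_one] at h2
        have h5 : bit (t (ad i₀ j.1)) = bit (s (ad i₀ j.1)) := by
          have h6 := h1.trans h2.symm
          exact add_right_cancel h6
        exact Kernel_bit_inj h5
      · exact h u hj
  funext u
  exact key u.1 u rfl

open Classical in
theorem sol_le (A B : Finset (Fin n)) (a : Fin n → Bool) (ha : ∃ i ∈ A, a i = true) :
    2 ^ B.card * (univ.filter fun t : Fin (2 * n - 1) → Bool => Ker A B t a).card ≤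
      2 ^ (2 * n - 1) := by
  classical
  obtain ⟨i₀, hi₀', hmax'⟩ := Finset.exists_max_image (A.filter fun i => a i = true) id (by
    obtain ⟨i, hi, hai⟩ := ha
    exact ⟨i, mem_filter.2 ⟨hi, hai⟩⟩)
  obtain ⟨hi₀, ha₀⟩ := mem_filter.1 hi₀'
  have hmax : ∀ i ∈ A, a i = true → i ≤ i₀ := fun i hi hai => hmax' i (mem_filter.2 ⟨hi, hai⟩)
  have hinj : Function.Injective
      (fun q : (B → Bool) × {t : Fin (2 * n - 1) → Bool // Ker A B t a} =>
        Kernel_f i₀ B q.2.1 q.1) := by
    rintro ⟨c, t, ht⟩ ⟨c', s, hs⟩ h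
    have h0 : Kernel_f i₀ B t c = Kernel_f i₀ B s c' := h
    have h1 : c = c' := by
      funext j
      rw [← Kernel_f_mem i₀ B t c j, h0, Kernel_f_mem]
    have h2 : t = s := by
      refine Kernel_unique A B a i₀ hi₀ ha₀ hmax t s ht hs fun u hu => ?_
      rw [← Kernel_f_not i₀ B t c hu, h0, Kernel_f_not i₀ B s c' hu]
    subst h1 h2
    rfl
  have h1 := Fintype.card_le_of_injective _ hinj
  rw [Fintype.card_prod, Fintype.card_fun, Fintype.card_fun, Fintype.card_bool,
    Fintype.card_fin, Fintype.card_coe, Fintype.card_subtype] at h1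
  exact h1

theorem kap_sum (A B : Finset (Fin n)) (hAB : A.card = B.card) :
    2 ^ A.card * ∑ t, kap A B t ≤ 2 * 2 ^ n * 2 ^ (2 * n - 1) := by
  classical
  -- exchange the sums
  have h1 : ∑ t, kap A B t = ∑ a : Fin n → Bool,
      (univ.filter fun t : Fin (2 * n - 1) → Bool => Ker A B t a).card := by
    unfold kap
    simp only [card_filter]
    exact sum_comm
  -- the number of `a` vanishing on `A`
  have h2 : 2 ^ A.card * (univ.filter fun a : Fin n → Bool => ¬ ∃ i ∈ A, a i = true).card ≤
      2 ^ n := by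
    have hinj : Function.Injective
        (fun q : (A → Bool) × {a : Fin n → Bool // ¬ ∃ i ∈ A, a i = true} =>
          (fun i : Fin n => if h : i ∈ A then q.1 ⟨i, h⟩ else q.2.1 i : Fin n → Bool)) := by
      rintro ⟨c, a, ha⟩ ⟨c', a', ha'⟩ h
      have h3 : c = c' := by
        funext i
        have h4 := congrFun h i.1
        simp only [i.2, dif_pos] at h4
        exact h4
      have h5 : a = a' := by
        funext i
        by_cases hi : i ∈ A
        · have e1 : a i = false := Bool.eq_false_of_not_eq_true fun e => ha ⟨i, hi, e⟩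
          have e2 : a' i = false := Bool.eq_false_of_not_eq_true fun e => ha' ⟨i, hi, e⟩
          rw [e1, e2]
        · have h4 := congrFun h i
          simp only [hi, not_false_eq_true, dif_neg] at h4
          exact h4
      subst h3 h5
      rfl
    have h3 := Fintype.card_le_of_injective _ hinj
    rw [Fintype.card_prod, Fintype.card_fun, Fintype.card_fun, Fintype.card_bool,
      Fintype.card_fin, Fintype.card_coe, Fintype.card_subtype] at h3
    exact h3
  -- every `a`
  have h3 : ∀ a : Fin n → Bool,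
      2 ^ A.card * (univ.filter fun t : Fin (2 * n - 1) → Bool => Ker A B t a).card ≤
        2 ^ (2 * n - 1) + (if ∃ i ∈ A, a i = true then 0 else 2 ^ A.card * 2 ^ (2 * n - 1)) := by
    intro a
    by_cases ha : ∃ i ∈ A, a i = true
    · rw [if_pos ha, add_zero, hAB]
      exact sol_le A B a ha
    · rw [if_neg ha]
      refine le_trans (Nat.mul_le_mul_left _ ?_) (Nat.le_add_left _ _)
      refine (card_le_univ _).trans (le_of_eq ?_)
      rw [Fintype.card_fun, Fintype.card_bool, Fintype.card_fin]
  have h4 : ∑ a : Fin n → Bool,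
      (if ∃ i ∈ A, a i = true then 0 else 2 ^ A.card * 2 ^ (2 * n - 1)) ≤
        2 ^ n * 2 ^ (2 * n - 1) := by
    have e1 : ∀ a ∈ (univ : Finset (Fin n → Bool)),
        (if ∃ i ∈ A, a i = true then 0 else 2 ^ A.card * 2 ^ (2 * n - 1)) =
          (if ¬ ∃ i ∈ A, a i = true then 2 ^ A.card * 2 ^ (2 * n - 1) else 0) := by
      intro a _
      by_cases ha : ∃ i ∈ A, a i = true
      · rw [if_pos ha, if_neg (not_not.2 ha)]
      · rw [if_neg ha, if_pos ha]
    rw [sum_congr rfl e1, ← sum_filter, sum_const, smul_eq_mul]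
    calc (univ.filter fun a : Fin n → Bool => ¬ ∃ i ∈ A, a i = true).card *
          (2 ^ A.card * 2 ^ (2 * n - 1))
        = (2 ^ A.card * (univ.filter fun a : Fin n → Bool => ¬ ∃ i ∈ A, a i = true).card) *
            2 ^ (2 * n - 1) := by ring
      _ ≤ 2 ^ n * 2 ^ (2 * n - 1) := Nat.mul_le_mul_right _ h2
  rw [h1, mul_sum]
  calc ∑ a : Fin n → Bool,
        2 ^ A.card * (univ.filter fun t : Fin (2 * n - 1) → Bool => Ker A B t a).card
      ≤ ∑ a : Fin n → Bool, (2 ^ (2 * n - 1) +
          (if ∃ i ∈ A, a i = true then 0 else 2 ^ A.card * 2 ^ (2 * n - 1))) :=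
        sum_le_sum fun a _ => h3 a
    _ = 2 ^ n * 2 ^ (2 * n - 1) + ∑ a : Fin n → Bool,
          (if ∃ i ∈ A, a i = true then 0 else 2 ^ A.card * 2 ^ (2 * n - 1)) := by
        rw [sum_add_distrib, sum_const, card_univ, Fintype.card_fun, Fintype.card_bool,
          Fintype.card_fin, smul_eq_mul]
    _ ≤ 2 ^ n * 2 ^ (2 * n - 1) + 2 ^ n * 2 ^ (2 * n - 1) := Nat.add_le_add_left h4 _
    _ = 2 * 2 ^ n * 2 ^ (2 * n - 1) := by ring

end Pool.Agent.Lib_MP_22d2c8_sym
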