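import Pool.Agent.Lib_MP_22d2c8_sym.Rect

/-!
# SYM-Swap: overriding the bits in `A` and `B`

`swap_sum`: the map `(w, a, b) ↦ (ext A B w a b, a', b')`, `a' i = if i ∈ A then w (x_i) else a i`,
`b' j = if j ∈ B then w (y_j) else b j`, is an involution of `(Inp n → Bool) × (Fin n → Bool) × (Fin n → Bool)`
(`Function.Involutive.toPerm`, `Equiv.sum_comp`), so the sum is `∑_(w, a, b) F w = 2 ^ n * 2 ^ n * ∑_w F w`.
`hank_ext`: write the bit `x_i` of `ext` as `bit = [i ∈ A] bit (a i) + [i ∉ A] bit (w x_i)`, same for `y_j`, and expand: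
the sum in `hank` is `bil A B t a b + l₁ a + l₂ b`, where `l₁ a` collects the terms with `i ∈ A`, `j ∉ B` and
`l₂ b` the terms with `i ∉ A`. Then `sgn (decide (z = 1)) = chi z` for `z : ZMod 2` (by `decide`-like case
check) and `chi_add`; `ψ₁ a = chi (l₁ a)`, `ψ₂ b = chi (l₂ b)`.
-/

namespace Pool.Agent.Lib_MP_22d2c8_sym

open Finset

variable {n : ℕ}

/-- Override the bits `x_i`, `i ∈ A`, by `a` and the bits `y_j`, `j ∈ B`, by `b`. -/
def ext (A B : Finset (Fin n)) (w : Inp n → Bool) (a b : Fin n → Bool) : Inp n → Bool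
  | Sum.inl (Sum.inl i) => if i ∈ A then a i else w (Sum.inl (Sum.inl i))
  | Sum.inl (Sum.inr j) => if j ∈ B then b j else w (Sum.inl (Sum.inr j))
  | Sum.inr u => w (Sum.inr u)

/-- The involution exchanging the overridden bits with the given ones. -/
private def swapT (A B : Finset (Fin n))
    (p : (Inp n → Bool) × (Fin n → Bool) × (Fin n → Bool)) :
    (Inp n → Bool) × (Fin n → Bool) × (Fin n → Bool) :=
  (ext A B p.1 p.2.1 p.2.2,
    (fun i => if i ∈ A then p.1 (Sum.inl (Sum.inl i)) else p.2.1 i),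
    (fun j => if j ∈ B then p.1 (Sum.inl (Sum.inr j)) else p.2.2 j))

private theorem swapT_invol (A B : Finset (Fin n)) : Function.Involutive (swapT A B) := by
  rintro ⟨w, a, b⟩
  refine Prod.ext ?_ (Prod.ext ?_ ?_)
  · funext v
    rcases v with (i | j) | u
    · show (if i ∈ A then (if i ∈ A then w (Sum.inl (Sum.inl i)) else a i)
        else (if i ∈ A then a i else w (Sum.inl (Sum.inl i)))) = w (Sum.inl (Sum.inl i))
      by_cases h : i ∈ A
      · rw [if_pos h, if_pos h]
      · rw [if_neg h, if_neg h]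
    · show (if j ∈ B then (if j ∈ B then w (Sum.inl (Sum.inr j)) else b j)
        else (if j ∈ B then b j else w (Sum.inl (Sum.inr j)))) = w (Sum.inl (Sum.inr j))
      by_cases h : j ∈ B
      · rw [if_pos h, if_pos h]
      · rw [if_neg h, if_neg h]
    · rfl
  · funext i
    show (if i ∈ A then (if i ∈ A then a i else w (Sum.inl (Sum.inl i)))
      else (if i ∈ A then w (Sum.inl (Sum.inl i)) else a i)) = a i
    by_cases h : i ∈ A
    · rw [if_pos h, if_pos h]
    · rw [if_neg h, if_neg h]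
  · funext j
    show (if j ∈ B then (if j ∈ B then b j else w (Sum.inl (Sum.inr j)))
      else (if j ∈ B then w (Sum.inl (Sum.inr j)) else b j)) = b j
    by_cases h : j ∈ B
    · rw [if_pos h, if_pos h]
    · rw [if_neg h, if_neg h]

theorem swap_sum (A B : Finset (Fin n)) (F : (Inp n → Bool) → ℝ) :
    ∑ w, ∑ a, ∑ b, F (ext A B w a b) = 2 ^ (2 * n) * ∑ w, F w := by
  have h1 : ∑ p : (Inp n → Bool) × (Fin n → Bool) × (Fin n → Bool), F (swapT A B p).1 =
      ∑ p : (Inp n → Bool) × (Fin n → Bool) × (Fin n → Bool), F p.1 :=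
    Equiv.sum_comp (Function.Involutive.toPerm (swapT A B) (swapT_invol A B)) (fun p => F p.1)
  rw [Fintype.sum_prod_type, Fintype.sum_prod_type] at h1
  have h2 : ∀ w : Inp n → Bool, ∑ q : (Fin n → Bool) × (Fin n → Bool), F (swapT A B (w, q)).1 =
      ∑ a, ∑ b, F (ext A B w a b) := by
    intro w
    rw [Fintype.sum_prod_type]
    rfl
  rw [Finset.sum_congr rfl (fun w _ => h2 w)] at h1
  rw [h1, Finset.mul_sum]
  refine Finset.sum_congr rfl fun w _ => ?_
  show ∑ _y : (Fin n → Bool) × (Fin n → Bool), F w = 2 ^ (2 * n) * F w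
  rw [Finset.sum_const, Finset.card_univ, Fintype.card_prod, nsmul_eq_mul]
  simp only [Fintype.card_fun, Fintype.card_bool, Fintype.card_fin]
  push_cast
  ring

private theorem swap_chi (z : ZMod 2) : sgn (decide (z = 1)) = chi z := by
  have h : ∀ z : ZMod 2, z = 0 ∨ z = 1 := by decide
  rcases h z with rfl | rfl
  · rfl
  · rfl

private theorem swap_abs (z : ZMod 2) : |chi z| ≤ 1 := by
  unfold chi
  split_ifs
  · rw [abs_one]
  · rw [abs_neg, abs_one]

theorem hank_ext (A B : Finset (Fin n)) (w : Inp n → Bool) :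
    ∃ ψ₁ ψ₂ : (Fin n → Bool) → ℝ, (∀ a, |ψ₁ a| ≤ 1) ∧ (∀ b, |ψ₂ b| ≤ 1) ∧
      ∀ a b, sgn (hank (ext A B w a b)) =
        ψ₁ a * ψ₂ b * chi (bil A B (fun u => w (Sum.inr u)) a b) := by
  refine ⟨fun a => chi (∑ i ∈ A, ∑ j ∈ Bᶜ, bit (w (Sum.inr (ad i j))) * bit (a i) *
      bit (w (Sum.inl (Sum.inr j)))),
    fun b => chi (∑ i ∈ Aᶜ, ∑ j, bit (w (Sum.inr (ad i j))) * bit (w (Sum.inl (Sum.inl i))) *
      bit (if j ∈ B then b j else w (Sum.inl (Sum.inr j)))),
    fun a => swap_abs _, fun b => swap_abs _, fun a b => ?_⟩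
  have h1 : hank (ext A B w a b) = decide ((∑ i : Fin n, ∑ j : Fin n,
      bit (w (Sum.inr (ad i j))) * bit (if i ∈ A then a i else w (Sum.inl (Sum.inl i))) *
        bit (if j ∈ B then b j else w (Sum.inl (Sum.inr j)))) = 1) := rfl
  rw [h1, swap_chi, ← chi_add, ← chi_add]
  congr 1
  rw [← Finset.sum_add_sum_compl A]
  have h2 : ∑ i ∈ Aᶜ, ∑ j, bit (w (Sum.inr (ad i j))) *
      bit (if i ∈ A then a i else w (Sum.inl (Sum.inl i))) *
        bit (if j ∈ B then b j else w (Sum.inl (Sum.inr j))) =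
      ∑ i ∈ Aᶜ, ∑ j, bit (w (Sum.inr (ad i j))) * bit (w (Sum.inl (Sum.inl i))) *
        bit (if j ∈ B then b j else w (Sum.inl (Sum.inr j))) := by
    refine Finset.sum_congr rfl fun i hi => ?_
    rw [if_neg (Finset.mem_compl.1 hi)]
  have h3 : ∑ i ∈ A, ∑ j, bit (w (Sum.inr (ad i j))) *
      bit (if i ∈ A then a i else w (Sum.inl (Sum.inl i))) *
        bit (if j ∈ B then b j else w (Sum.inl (Sum.inr j))) =
      bil A B (fun u => w (Sum.inr u)) a b + ∑ i ∈ A, ∑ j ∈ Bᶜ,
        bit (w (Sum.inr (ad i j))) * bit (a i) * bit (w (Sum.inl (Sum.inr j))) := by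
    unfold bil
    rw [← Finset.sum_add_distrib]
    refine Finset.sum_congr rfl fun i hi => ?_
    rw [if_pos hi, ← Finset.sum_add_sum_compl B]
    congr 1
    · exact Finset.sum_congr rfl fun j hj => by rw [if_pos hj]
    · exact Finset.sum_congr rfl fun j hj => by rw [if_neg (Finset.mem_compl.1 hj)]
  rw [h2, h3]
  ring

end Pool.Agent.Lib_MP_22d2c8_sym
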