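import Pool.Agent.Lib_MP_22d2c8_sym.Mass

/-!
# SYM-Thr: choice of the thresholds

`Gf c d D j a`: if a window `(a, b]` has `b ≥ Gf c d D j a` then the thresholds of the last `j` levels can be
chosen inside it. Proof of `thresholds` by induction on the number `k ≤ d` of levels done:
there are `th`, `a`, `b` with `K + 1 ≤ a`, `th l ≤ a` for `l < k`, `Gf (d - k) a ≤ b ≤ Gf d (K + 1)` and
`8 * d * ∑ |seq th g| ≤ k * n`, sum over the big shared `g ∉ X` with `lev g < k` and `th (lev g) < |seq g| ≤ b`.
Start: `a = K + 1`, `b = Gf d (K + 1)`, empty sum.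
Step (`k < d`, `d - k = j + 1`): put `a_0 = a`, `a_(i+1) = Gf j (a_i)`, `i < M = 8 * d * c * a + 1`; the `a_i` are
nondecreasing (`le_Gf`) and `a_M = Gf (j+1) a ≤ b`. The masses `m_i` = sum of `|seq th g|` over big shared `g ∉ X` with
`lev g = k` and `a_i < |seq g| ≤ a_(i+1)`, `i < M`, are over disjoint sets, so their sum is at most
`wires * a ≤ c * n * a` (`mass` with `B = a`). If `8 * d * m_i > n` for all `i < M` then
`M * n ≤ 8 * d * c * n * a < M * n`. So `8 * d * m_i ≤ n` for some `i`; take `th' = Function.update th k a_i`,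
`a' = a_i`, `b' = a_(i+1) ≤ b`. By `seq_congr` the sequences of the gates with `lev ≤ k` do not change.
At the end (`k = d`): `Gf 0 a = max a (D a) ≤ b`: `θ = a`, `Θ = b`; every big shared gate outside `X` has `lev g < d`, so
`8 * d * ∑_(mids) |seq g| ≤ d * n`; divide by `d` (for `d = 0` there are no such gates, the sum is empty).
-/

namespace Pool.Agent.Lib_MP_22d2c8_sym

open Finset

/-- The window function. -/
def Gf (c d : ℕ) (D : ℕ → ℕ) : ℕ → ℕ → ℕ
  | 0 => fun a => max a (D a)
  | j + 1 => fun a => (Gf c d D j)^[8 * d * c * a + 1] a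

theorem le_Gf (c d : ℕ) (D : ℕ → ℕ) (j a : ℕ) : a ≤ Gf c d D j a := by
  induction j generalizing a with
  | zero => exact le_max_left _ _
  | succ j ih => exact Function.id_le_iterate_of_id_le (fun x => ih x) (8 * d * c * a + 1) a

private theorem iter_mono {f : ℕ → ℕ} (hf : ∀ x, x ≤ f x) (a : ℕ) {i j : ℕ} (h : i ≤ j) :
    f^[i] a ≤ f^[j] a := by
  induction h with
  | refl => exact le_rfl
  | step _ ih =>
    rw [Function.iterate_succ_apply']
    exact ih.trans (hf _)

namespace Circuit

open Classical in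
/-- shared gates of the levels below `k` with length in the window -/
private noncomputable def S {W U : Type} (C : Circuit (W ⊕ U)) (K : ℕ) (X : Finset C.Gate)
    (lev : C.Gate → ℕ) (th : ℕ → ℕ) (k b : ℕ) : Finset C.Gate :=
  univ.filter fun g => C.Big K g ∧ g ∉ X ∧ C.Shared K g ∧ lev g < k ∧
    th (lev g) < (C.seq K X lev th g).length ∧ (C.seq K X lev th g).length ≤ b

open Classical in
/-- shared gates of the level `k` with length in the window `(a, b]` -/
private noncomputable def T {W U : Type} (C : Circuit (W ⊕ U)) (K : ℕ) (X : Finset C.Gate)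
    (lev : C.Gate → ℕ) (th : ℕ → ℕ) (k a b : ℕ) : Finset C.Gate :=
  univ.filter fun g => C.Big K g ∧ g ∉ X ∧ C.Shared K g ∧ lev g = k ∧
    a < (C.seq K X lev th g).length ∧ (C.seq K X lev th g).length ≤ b

private theorem pick {W U : Type} (C : Circuit (W ⊕ U)) (K c d n : ℕ) (X : Finset C.Gate)
    (hn : 0 < n) (lev : C.Gate → ℕ) (hlev : C.IsLev K X d lev) (hc : C.wires K ≤ c * n)
    (th : ℕ → ℕ) (k a : ℕ) (ha : K + 1 ≤ a) (hth : ∀ l < k, th l ≤ a) (f : ℕ → ℕ)
    (hf : ∀ x, x ≤ f x) :
    ∃ i < 8 * d * c * a + 1, 8 * d * ∑ g ∈ C.T K X lev th k (f^[i] a) (f^[i + 1] a),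
      (C.seq K X lev th g).length ≤ n := by
  classical
  by_contra hcon
  push Not at hcon
  have h1 : ∑ i ∈ range (8 * d * c * a + 1), ∑ g ∈ C.T K X lev th k (f^[i] a) (f^[i + 1] a),
      (C.seq K X lev th g).length ≤ C.wires K * a := by
    rw [← sum_biUnion]
    · refine le_trans (sum_le_sum_of_subset ?_) (C.mass K X hlev th a k ha hth)
      intro g hg
      rw [mem_biUnion] at hg
      obtain ⟨i, -, hg⟩ := hg
      rw [T, mem_filter] at hg
      rw [mem_filter]
      exact ⟨mem_univ _, hg.2.1, hg.2.2.1, hg.2.2.2.1, hg.2.2.2.2.1.le⟩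
    · have key : ∀ i j : ℕ, i < j → Disjoint (C.T K X lev th k (f^[i] a) (f^[i + 1] a))
          (C.T K X lev th k (f^[j] a) (f^[j + 1] a)) := by
        intro i j hij
        rw [Finset.disjoint_left]
        intro g hg hg'
        rw [T, mem_filter] at hg hg'
        have h2 : f^[i + 1] a ≤ f^[j] a := iter_mono hf a hij
        have h3 := hg.2.2.2.2.2.2
        have h4 := hg'.2.2.2.2.2.1
        omega
      intro i _ j _ hij
      rcases Nat.lt_or_gt_of_ne hij with h | h
      · exact key i j h
      · exact (key j i h).symm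
  have h2 : ∑ i ∈ range (8 * d * c * a + 1), n ≤ 8 * d *
      ∑ i ∈ range (8 * d * c * a + 1), ∑ g ∈ C.T K X lev th k (f^[i] a) (f^[i + 1] a),
        (C.seq K X lev th g).length := by
    rw [mul_sum]
    exact sum_le_sum fun i hi => (hcon i (mem_range.1 hi)).le
  rw [sum_const, card_range, smul_eq_mul] at h2
  have h3 : 8 * d * ∑ i ∈ range (8 * d * c * a + 1),
      ∑ g ∈ C.T K X lev th k (f^[i] a) (f^[i + 1] a), (C.seq K X lev th g).length ≤
      8 * d * (c * n * a) :=
    Nat.mul_le_mul_left _ (h1.trans (Nat.mul_le_mul_right _ hc))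
  have h4 : (8 * d * c * a + 1) * n = 8 * d * (c * n * a) + n := by ring
  omega

private theorem step {W U : Type} (C : Circuit (W ⊕ U)) (K c d n : ℕ) (X : Finset C.Gate)
    (D : ℕ → ℕ) (hn : 0 < n) (lev : C.Gate → ℕ) (hlev : C.IsLev K X d lev)
    (hc : C.wires K ≤ c * n) (k : ℕ) (hk : k ≤ d) :
    ∃ (th : ℕ → ℕ) (a b : ℕ), K + 1 ≤ a ∧ (∀ l < k, th l ≤ a) ∧ Gf c d D (d - k) a ≤ b ∧
      b ≤ Gf c d D d (K + 1) ∧
      8 * d * ∑ g ∈ C.S K X lev th k b, (C.seq K X lev th g).length ≤ k * n := by
  classical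
  induction k with
  | zero =>
    refine ⟨fun _ => 0, K + 1, Gf c d D d (K + 1), le_rfl, fun l hl => absurd hl (Nat.not_lt_zero l),
      le_rfl, le_rfl, ?_⟩
    have h0 : C.S K X lev (fun _ => 0) 0 (Gf c d D d (K + 1)) = ∅ := by
      rw [S, filter_eq_empty_iff]
      rintro g - ⟨-, -, -, h, -⟩
      exact absurd h (Nat.not_lt_zero _)
    rw [h0, sum_empty, mul_zero]
    exact Nat.zero_le _
  | succ k ih =>
    obtain ⟨th, a, b, ha, hth, hab, hb, hsum⟩ := ih (by omega)
    obtain ⟨j, hj⟩ : ∃ j, d - k = j + 1 := ⟨d - k - 1, by omega⟩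
    have hj' : d - (k + 1) = j := by omega
    rw [hj] at hab
    have hf : ∀ x, x ≤ Gf c d D j x := le_Gf c d D j
    obtain ⟨i, hi, hm⟩ := C.pick K c d n X hn lev hlev hc th k a ha hth (Gf c d D j) hf
    set f := Gf c d D j with hfd
    have hai : a ≤ f^[i] a := iter_mono hf a (Nat.zero_le i)
    have hib : f^[i + 1] a ≤ b := (iter_mono hf a (show i + 1 ≤ 8 * d * c * a + 1 by omega)).trans hab
    refine ⟨Function.update th k (f^[i] a), f^[i] a, f^[i + 1] a, ha.trans hai, ?_, ?_,
      hib.trans hb, ?_⟩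
    · intro l hl
      by_cases hlk : l = k
      · rw [hlk, Function.update_self]
      · rw [Function.update_of_ne hlk]
        exact (hth l (by omega)).trans hai
    · rw [hj', ← hfd, Function.iterate_succ_apply']
    · have hseq : ∀ g, C.Big K g → lev g ≤ k →
          C.seq K X lev (Function.update th k (f^[i] a)) g = C.seq K X lev th g := by
        intro g hg hgk
        exact C.seq_congr K X hlev k _ _
          (fun l hl => Function.update_of_ne (Nat.ne_of_lt hl) _ _) g hg hgk
      have hsub : C.S K X lev (Function.update th k (f^[i] a)) (k + 1) (f^[i + 1] a) ⊆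
          C.S K X lev th k b ∪ C.T K X lev th k (f^[i] a) (f^[i + 1] a) := by
        intro g hg
        rw [S, mem_filter] at hg
        obtain ⟨-, h1, h2, h3, h4, h5, h6⟩ := hg
        rw [hseq g h1 (by omega)] at h5 h6
        rw [mem_union]
        by_cases hgk : lev g = k
        · right
          rw [hgk, Function.update_self] at h5
          rw [T, mem_filter]
          exact ⟨mem_univ _, h1, h2, h3, hgk, h5, h6⟩
        · left
          rw [Function.update_of_ne hgk] at h5
          rw [S, mem_filter]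
          exact ⟨mem_univ _, h1, h2, h3, by omega, h5, h6.trans hib⟩
      have h1 : ∑ g ∈ C.S K X lev (Function.update th k (f^[i] a)) (k + 1) (f^[i + 1] a),
          (C.seq K X lev (Function.update th k (f^[i] a)) g).length ≤
          ∑ g ∈ C.S K X lev th k b, (C.seq K X lev th g).length +
            ∑ g ∈ C.T K X lev th k (f^[i] a) (f^[i + 1] a), (C.seq K X lev th g).length := by
        calc ∑ g ∈ C.S K X lev (Function.update th k (f^[i] a)) (k + 1) (f^[i + 1] a),
              (C.seq K X lev (Function.update th k (f^[i] a)) g).length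
            = ∑ g ∈ C.S K X lev (Function.update th k (f^[i] a)) (k + 1) (f^[i + 1] a),
              (C.seq K X lev th g).length := by
              refine sum_congr rfl fun g hg => ?_
              rw [S, mem_filter] at hg
              rw [hseq g hg.2.1 (by have := hg.2.2.2.2.1; omega)]
          _ ≤ ∑ g ∈ C.S K X lev th k b ∪ C.T K X lev th k (f^[i] a) (f^[i + 1] a),
              (C.seq K X lev th g).length := sum_le_sum_of_subset hsub
          _ ≤ _ := by
              rw [← sum_union_inter]
              exact Nat.le_add_right _ _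
      calc 8 * d * ∑ g ∈ C.S K X lev (Function.update th k (f^[i] a)) (k + 1) (f^[i + 1] a),
            (C.seq K X lev (Function.update th k (f^[i] a)) g).length
          ≤ 8 * d * (∑ g ∈ C.S K X lev th k b, (C.seq K X lev th g).length +
            ∑ g ∈ C.T K X lev th k (f^[i] a) (f^[i + 1] a), (C.seq K X lev th g).length) :=
            Nat.mul_le_mul_left _ h1
        _ = 8 * d * ∑ g ∈ C.S K X lev th k b, (C.seq K X lev th g).length +
            8 * d * ∑ g ∈ C.T K X lev th k (f^[i] a) (f^[i + 1] a), (C.seq K X lev th g).length :=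
            mul_add _ _ _
        _ ≤ k * n + n := Nat.add_le_add hsum hm
        _ = (k + 1) * n := by ring

theorem thresholds {W U : Type} (C : Circuit (W ⊕ U)) (K c d n : ℕ) (X : Finset C.Gate)
    (D : ℕ → ℕ) (hn : 0 < n) (lev : C.Gate → ℕ) (hlev : C.IsLev K X d lev)
    (hc : C.wires K ≤ c * n) :
    ∃ (th : ℕ → ℕ) (θ Θ : ℕ), K + 1 ≤ θ ∧ θ ≤ Θ ∧ D θ ≤ Θ ∧ Θ ≤ Gf c d D d (K + 1) ∧
      (∀ l < d, th l ≤ θ) ∧
      8 * ∑ g ∈ C.mids K X lev th Θ, (C.seq K X lev th g).length ≤ n := by
  classical
  obtain ⟨th, a, b, ha, hth, hab, hb, hsum⟩ := C.step K c d n X D hn lev hlev hc d le_rfl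
  rw [Nat.sub_self] at hab
  have hab' : max a (D a) ≤ b := hab
  refine ⟨th, a, b, ha, (le_max_left _ _).trans hab', (le_max_right _ _).trans hab', hb, hth, ?_⟩
  have hsub : C.mids K X lev th b ⊆ C.S K X lev th d b := by
    intro g hg
    rw [mids, mem_filter] at hg
    obtain ⟨-, h1, h2, h3, h4, h5⟩ := hg
    rw [S, mem_filter]
    exact ⟨mem_univ _, h1, h2, h3, hlev.2 g h1 h2 h3, h4, h5⟩
  rcases Nat.eq_zero_or_pos d with hd | hd
  · have h0 : C.mids K X lev th b = ∅ := by
      rw [← subset_empty]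
      refine hsub.trans ?_
      intro g hg
      rw [S, mem_filter] at hg
      have := hg.2.2.2.2.1
      omega
    rw [h0, sum_empty, mul_zero]
    exact Nat.zero_le _
  · have h1 : d * (8 * ∑ g ∈ C.mids K X lev th b, (C.seq K X lev th g).length) ≤ d * n := by
      calc d * (8 * ∑ g ∈ C.mids K X lev th b, (C.seq K X lev th g).length)
          = 8 * d * ∑ g ∈ C.mids K X lev th b, (C.seq K X lev th g).length := by ring
        _ ≤ 8 * d * ∑ g ∈ C.S K X lev th d b, (C.seq K X lev th g).length :=
          Nat.mul_le_mul_left _ (sum_le_sum_of_subset hsub)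
        _ ≤ d * n := hsum
    exact Nat.le_of_mul_le_mul_left h1 hd

end Circuit

end Pool.Agent.Lib_MP_22d2c8_sym
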