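import Pool.Agent.Lib_MP_22d2c8_sym.Fun

/-!
# Circuits with gates of unbounded fan-in, subfunctions of gates, sharing depth
-/

namespace Pool.Agent.Lib_MP_22d2c8_sym

open Finset

/-- A Boolean circuit with input variables `V` and gates of any fan-in. The gates are numbered
`0, ..., m`; gate `g` applies the Boolean function `op g` to its `arity g` sources, each an input
variable or an earlier gate. Input variables may be read any number of times. The last gate is the
output. -/
structure Circuit (V : Type) where
  m : ℕ
  arity : Fin (m + 1) → ℕ
  op : (g : Fin (m + 1)) → (Fin (arity g) → Bool) → Bool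
  src : (g : Fin (m + 1)) → Fin (arity g) → V ⊕ Fin (m + 1)
  src_lt : ∀ g s h, src g s = Sum.inr h → h < g

open Classical in
/-- The subfunction of `f` obtained by fixing the arguments in `I` as in `u` (a function of all
arguments that ignores those in `I`). -/
noncomputable def sub {a : ℕ} (f : (Fin a → Bool) → Bool) (I : Finset (Fin a)) (u : Fin a → Bool) :
    (Fin a → Bool) → Bool :=
  fun z => f fun i => if i ∈ I then u i else z i

open Classical in
/-- For every set `I` of arguments, `f` has at most `w` subfunctions obtained by fixing the
arguments in `I`. (A symmetric function of `a` arguments has at most `a + 1`, every function of `a`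
arguments has at most `2 ^ a`.) -/
def SubLE (w : ℕ) {a : ℕ} (f : (Fin a → Bool) → Bool) : Prop :=
  ∀ I : Finset (Fin a), (univ.image (sub f I)).card ≤ w

/-- The function `f` is symmetric: its value depends only on the number of arguments that are
true. -/
def Symm {a : ℕ} (f : (Fin a → Bool) → Bool) : Prop :=
  ∀ u v : Fin a → Bool, (univ.filter fun i => u i = true).card =
    (univ.filter fun i => v i = true).card → f u = f v

namespace Circuit

variable {V : Type} (C : Circuit V)

/-- The gates. -/
abbrev Gate : Type := Fin (C.m + 1)

/-- The output gate. -/
def out : C.Gate := Fin.last C.m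

/-- What a source looks like, given the inputs `inp`, and `F` for the gates, seen through `ref`. -/
def look {β : Type*} (inp : V → β) (ref : C.Gate → β → β) (F : C.Gate → β) :
    V ⊕ C.Gate → β
  | Sum.inl v => inp v
  | Sum.inr h => ref h (F h)

/-- Recursion along the circuit: `fold g` is obtained from what its sources look like. -/
def fold {β : Type*} (inp : V → β) (ref : C.Gate → β → β)
    (node : (g : C.Gate) → (Fin (C.arity g) → β) → β) (g : C.Gate) : β :=
  node g fun s => match _e : C.src g s with
    | Sum.inl v => inp v
    | Sum.inr h => ref h (fold inp ref node h)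
termination_by g.val
decreasing_by exact C.src_lt g s h _e

theorem fold_eq {β : Type*} (inp : V → β) (ref : C.Gate → β → β)
    (node : (g : C.Gate) → (Fin (C.arity g) → β) → β) (g : C.Gate) :
    C.fold inp ref node g =
      node g fun s => C.look inp ref (C.fold inp ref node) (C.src g s) := by
  rw [fold]
  congr 1
  funext s
  split <;> rename_i e <;> rw [e] <;> rfl

/-- The value of gate `g` on the input `x`. -/
def val (x : V → Bool) : C.Gate → Bool :=
  C.fold x (fun _ b => b) C.op

/-- The value of a source on the input `x`. -/
def srcVal (x : V → Bool) : V ⊕ C.Gate → Bool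
  | Sum.inl v => x v
  | Sum.inr h => C.val x h

/-- The value of a gate is the function of the gate applied to the values of its sources. -/
theorem val_eq (x : V → Bool) (g : C.Gate) :
    C.val x g = C.op g fun s => C.srcVal x (C.src g s) := by
  have h : ∀ s : V ⊕ C.Gate, C.look x (fun _ b => b) (C.fold x (fun _ b => b) C.op) s =
      C.srcVal x s := by
    intro s
    cases s <;> rfl
  rw [val, fold_eq]
  simp only [h]

end Circuit

namespace Circuit

variable {W U : Type} (C : Circuit (W ⊕ U))

/-- The value of gate `g` depends on at most `K` of the input bits in `W` (and on any number of the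
input bits in `U`). -/
def Small (K : ℕ) (g : C.Gate) : Prop :=
  ∃ S : Finset W, S.card ≤ K ∧ ∀ x x' : W ⊕ U → Bool,
    (∀ v ∈ S, x (Sum.inl v) = x' (Sum.inl v)) → (∀ u, x (Sum.inr u) = x' (Sum.inr u)) →
      C.val x g = C.val x' g

/-- The value of gate `g` depends on more than `K` of the input bits in `W`. -/
def Big (K : ℕ) (g : C.Gate) : Prop := ¬ C.Small K g

open Classical in
/-- The number of wires into big gates. -/
noncomputable def wires (K : ℕ) : ℕ := ∑ g ∈ univ.filter (fun g => C.Big K g), C.arity g

open Classical in
/-- Gate `h` is shared: at least two wires lead from `h` to big gates. -/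
def Shared (K : ℕ) (h : C.Gate) : Prop :=
  2 ≤ (univ.filter fun p : (g : C.Gate) × Fin (C.arity g) =>
    C.Big K p.1 ∧ C.src p.1 p.2 = Sum.inr h).card

/-- A directed path of big gates outside `X`: each gate is a source of the next one. -/
def IsBigPath (K : ℕ) (X : Finset C.Gate) (p : List C.Gate) : Prop :=
  p.IsChain (fun h g => ∃ s, C.src g s = Sum.inr h) ∧ ∀ g ∈ p, C.Big K g ∧ g ∉ X

open Classical in
/-- Every directed path of big gates outside `X` contains at most `d` shared gates. -/
def SharingDepthLE (K : ℕ) (X : Finset C.Gate) (d : ℕ) : Prop :=
  ∀ p : List C.Gate, C.IsBigPath K X p → p.countP (fun g => decide (C.Shared K g)) ≤ d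

end Circuit

end Pool.Agent.Lib_MP_22d2c8_sym
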