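import Pool.Agent.Lib_MP_22d2c8_sym.Core

/-!
# Choice of the parameters
-/

namespace Pool.Agent.Lib_MP_22d2c8_sym

open Finset

private theorem Final_log {r R n : ℕ} (hr : 1 ≤ r) (hn : 1 ≤ n) (hrR : r ≤ R) :
    Nat.log 2 (r * n) + 1 ≤ (Nat.log 2 n + 1) * (Nat.log 2 R + 2) := by
  have h1 : r * n < 2 ^ (Nat.log 2 R + Nat.log 2 n + 2) := by
    have h2 : r < 2 ^ (Nat.log 2 R + 1) :=
      lt_of_le_of_lt hrR (Nat.lt_pow_succ_log_self (by norm_num) R)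
    have h3 : n < 2 ^ (Nat.log 2 n + 1) := Nat.lt_pow_succ_log_self (by norm_num) n
    calc r * n < 2 ^ (Nat.log 2 R + 1) * 2 ^ (Nat.log 2 n + 1) :=
          Nat.mul_lt_mul'' h2 h3
      _ = 2 ^ (Nat.log 2 R + Nat.log 2 n + 2) := by
          rw [← pow_add]
          congr 1
          ring
  have h4 : Nat.log 2 (r * n) < Nat.log 2 R + Nat.log 2 n + 2 :=
    Nat.log_lt_of_lt_pow (Nat.mul_pos hr hn).ne' h1
  nlinarith [Nat.zero_le (Nat.log 2 R * Nat.log 2 n), Nat.zero_le (Nat.log 2 n)]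

/-- the numerical part of `corr` -/
private theorem Final_num {K w r R T T₀ k L G n q Θ E x : ℕ} {s V : ℝ} (hV : 0 ≤ V)
    (hr1 : 1 ≤ r) (hrR : r ≤ R) (hT : T = 16 * r ^ 2) (hT₀ : T₀ = 16 * R ^ 2)
    (hE : E = 2 * T₀ * (Nat.log 2 R + 2)) (hw : 1 ≤ w)
    (hk : k = n / (16 * 2 ^ T)) (hq : q = 128 * 2 ^ T₀ * (E + 1))
    (hn : 16 * 2 ^ T₀ * (16 * T₀ * (K + 2) + 8) ≤ n)
    (hwq : w ^ (Nat.log 2 n + 1) ≤ 2 ^ (n / q))
    (hD : 256 * (r + 1) * 2 ^ T ≤ Θ) (hL : Θ * L ≤ r * n) (hG : G ≤ x + L) (hx : x ≤ n / q)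
    (hs : s ^ 2 * 2 ^ (2 * k) ≤
      (2 ^ G * ((2 ^ (K + 2) * w ^ (Nat.log 2 (r * n) + 1) : ℕ) : ℝ) ^ T) ^ 2 * 2 * V ^ 2) :
    2 ^ (n / q) * |s| ≤ V := by
  have hTT : T ≤ T₀ := by
    rw [hT, hT₀]
    exact Nat.mul_le_mul_left _ (Nat.pow_le_pow_left hrR 2)
  have h2T : 2 ^ T ≤ 2 ^ T₀ := Nat.pow_le_pow_right (by norm_num) hTT
  have h2T1 : 1 ≤ 2 ^ T := Nat.one_le_two_pow
  have h2T₀ : 1 ≤ 2 ^ T₀ := Nat.one_le_two_pow
  have hkbig : 16 * T₀ * (K + 2) + 8 ≤ k := by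
    rw [hk, Nat.le_div_iff_mul_le (by positivity)]
    calc (16 * T₀ * (K + 2) + 8) * (16 * 2 ^ T) ≤ (16 * T₀ * (K + 2) + 8) * (16 * 2 ^ T₀) :=
          Nat.mul_le_mul_left _ (Nat.mul_le_mul_left _ h2T)
      _ = 16 * 2 ^ T₀ * (16 * T₀ * (K + 2) + 8) := by ring
      _ ≤ n := hn
  have hn1 : 1 ≤ n := by
    have : 1 ≤ 16 * 2 ^ T₀ * (16 * T₀ * (K + 2) + 8) := Nat.mul_pos (by positivity) (by positivity)
    omega
  -- the number of large gates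
  have hL1 : 256 * 2 ^ T * L ≤ n := by
    have h1 : (r + 1) * (256 * 2 ^ T * L) ≤ (r + 1) * n := by
      calc (r + 1) * (256 * 2 ^ T * L) = 256 * (r + 1) * 2 ^ T * L := by ring
        _ ≤ Θ * L := Nat.mul_le_mul_right _ hD
        _ ≤ r * n := hL
        _ ≤ (r + 1) * n := Nat.mul_le_mul_right _ (Nat.le_succ _)
    exact Nat.le_of_mul_le_mul_left h1 (Nat.succ_pos _)
  have hL2 : L * 16 ≤ k := by
    rw [hk, Nat.le_div_iff_mul_le (by positivity)]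
    calc L * 16 * (16 * 2 ^ T) = 256 * 2 ^ T * L := by ring
      _ ≤ n := hL1
  have hq8 : n / q * (8 * (E + 1)) ≤ k := by
    rw [hk, Nat.le_div_iff_mul_le (by positivity)]
    calc n / q * (8 * (E + 1)) * (16 * 2 ^ T) = n / q * (128 * 2 ^ T * (E + 1)) := by ring
      _ ≤ n / q * q := by
          rw [hq]
          exact Nat.mul_le_mul_left _ (Nat.mul_le_mul_right _ (Nat.mul_le_mul_left _ h2T))
      _ ≤ n := Nat.div_mul_le_self _ _
  -- the number of states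
  have hlog := Final_log hr1 hn1 hrR
  have hstates : ((2 ^ (K + 2) * w ^ (Nat.log 2 (r * n) + 1)) ^ T) ^ 2 ≤
      2 ^ (2 * T₀ * (K + 2) + E * (n / q)) := by
    have h1 : w ^ (Nat.log 2 (r * n) + 1) ≤ 2 ^ (n / q * (Nat.log 2 R + 2)) := by
      calc w ^ (Nat.log 2 (r * n) + 1) ≤ w ^ ((Nat.log 2 n + 1) * (Nat.log 2 R + 2)) :=
            Nat.pow_le_pow_right hw hlog
        _ = (w ^ (Nat.log 2 n + 1)) ^ (Nat.log 2 R + 2) := pow_mul _ _ _
        _ ≤ (2 ^ (n / q)) ^ (Nat.log 2 R + 2) := Nat.pow_le_pow_left hwq _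
        _ = 2 ^ (n / q * (Nat.log 2 R + 2)) := (pow_mul _ _ _).symm
    have h2 : 2 ^ (K + 2) * w ^ (Nat.log 2 (r * n) + 1) ≤
        2 ^ (K + 2 + n / q * (Nat.log 2 R + 2)) := by
      rw [pow_add 2 (K + 2)]
      exact Nat.mul_le_mul_left _ h1
    calc ((2 ^ (K + 2) * w ^ (Nat.log 2 (r * n) + 1)) ^ T) ^ 2 =
          (2 ^ (K + 2) * w ^ (Nat.log 2 (r * n) + 1)) ^ (2 * T) := by
          rw [← pow_mul]
          congr 1
          ring
      _ ≤ (2 ^ (K + 2 + n / q * (Nat.log 2 R + 2))) ^ (2 * T) := Nat.pow_le_pow_left h2 _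
      _ = 2 ^ ((K + 2 + n / q * (Nat.log 2 R + 2)) * (2 * T)) := (pow_mul _ _ _).symm
      _ ≤ 2 ^ (2 * T₀ * (K + 2) + E * (n / q)) := by
          apply Nat.pow_le_pow_right (by norm_num)
          calc (K + 2 + n / q * (Nat.log 2 R + 2)) * (2 * T) ≤
                (K + 2 + n / q * (Nat.log 2 R + 2)) * (2 * T₀) :=
                Nat.mul_le_mul_left _ (Nat.mul_le_mul_left _ hTT)
            _ = 2 * T₀ * (K + 2) + E * (n / q) := by
                rw [hE]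
                ring
  have hstates' : ((((2 ^ (K + 2) * w ^ (Nat.log 2 (r * n) + 1) : ℕ) : ℝ) ^ T)) ^ 2 ≤
      2 ^ (2 * T₀ * (K + 2) + E * (n / q)) := by
    exact_mod_cast hstates
  have hexp : 2 * (n / q) + (2 * G + (2 * T₀ * (K + 2) + E * (n / q)) + 1) ≤ 2 * k := by
    have e1 : n / q * (8 * (E + 1)) = 8 * (E * (n / q)) + 8 * (n / q) := by ring
    have e2 : 16 * T₀ * (K + 2) = 8 * (2 * T₀ * (K + 2)) := by ring
    rw [e1] at hq8
    rw [e2] at hkbig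
    generalize 2 * T₀ * (K + 2) = u at *
    generalize E * (n / q) = v at *
    omega
  have hkey : (2 ^ (n / q) * |s|) ^ 2 * 2 ^ (2 * k) ≤ V ^ 2 * 2 ^ (2 * k) := by
    calc (2 ^ (n / q) * |s|) ^ 2 * 2 ^ (2 * k) = 2 ^ (2 * (n / q)) * (s ^ 2 * 2 ^ (2 * k)) := by
          rw [mul_pow, sq_abs, ← pow_mul, mul_comm (n / q) 2]
          ring
      _ ≤ 2 ^ (2 * (n / q)) * ((2 ^ G *
          ((2 ^ (K + 2) * w ^ (Nat.log 2 (r * n) + 1) : ℕ) : ℝ) ^ T) ^ 2 * 2 * V ^ 2) :=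
          mul_le_mul_of_nonneg_left hs (by positivity)
      _ = 2 ^ (2 * (n / q)) * (2 ^ (2 * G) *
          (((2 ^ (K + 2) * w ^ (Nat.log 2 (r * n) + 1) : ℕ) : ℝ) ^ T) ^ 2 * 2) * V ^ 2 := by
          rw [mul_pow, ← pow_mul, mul_comm G 2]
          ring
      _ ≤ 2 ^ (2 * (n / q)) * (2 ^ (2 * G) * 2 ^ (2 * T₀ * (K + 2) + E * (n / q)) * 2) * V ^ 2 := by
          apply mul_le_mul_of_nonneg_right _ (sq_nonneg V)
          apply mul_le_mul_of_nonneg_left _ (by positivity)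
          apply mul_le_mul_of_nonneg_right _ (by norm_num)
          exact mul_le_mul_of_nonneg_left hstates' (by positivity)
      _ = 2 ^ (2 * (n / q) + (2 * G + (2 * T₀ * (K + 2) + E * (n / q)) + 1)) * V ^ 2 := by
          rw [pow_add 2 (2 * (n / q)), pow_add 2 (2 * G + _) 1, pow_add 2 (2 * G), pow_one]
      _ ≤ 2 ^ (2 * k) * V ^ 2 := by
          apply mul_le_mul_of_nonneg_right _ (sq_nonneg V)
          exact pow_le_pow_right₀ (by norm_num) hexp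
      _ = V ^ 2 * 2 ^ (2 * k) := mul_comm _ _
  have hkey2 : (2 ^ (n / q) * |s|) ^ 2 ≤ V ^ 2 := le_of_mul_le_mul_right hkey (by positivity)
  exact (pow_le_pow_iff_left₀ (by positivity) hV (by norm_num)).1 hkey2

theorem corr (d K c : ℕ) : ∃ q N : ℕ, 0 < q ∧ 0 < N ∧ ∀ n ≥ N, ∀ w : ℕ,
    w ^ (Nat.log 2 n + 1) ≤ 2 ^ (n / q) → ∀ C : Circuit (Inp n), C.wires K ≤ c * n →
      (∀ g, C.Big K g → SubLE w (C.op g)) → ∀ X : Finset C.Gate, X.card ≤ n / q →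
      C.SharingDepthLE K X d →
      2 ^ (n / q) * |∑ x : Inp n → Bool, sgn (C.val x C.out) * sgn (hank x)| ≤ 2 ^ (4 * n - 1) := by
  obtain ⟨D, hD⟩ : ∃ D : ℕ → ℕ, ∀ θ, D θ =
      256 * ((c + 1) * θ + 1) * 2 ^ (16 * ((c + 1) * θ) ^ 2) := ⟨_, fun _ => rfl⟩
  obtain ⟨M, hM⟩ : ∃ M, M = Gf c d D d (K + 1) := ⟨_, rfl⟩
  obtain ⟨R, hR⟩ : ∃ R, R = (c + 1) * M := ⟨_, rfl⟩
  obtain ⟨T₀, hT₀⟩ : ∃ T₀, T₀ = 16 * R ^ 2 := ⟨_, rfl⟩
  obtain ⟨E, hE⟩ : ∃ E, E = 2 * T₀ * (Nat.log 2 R + 2) := ⟨_, rfl⟩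
  refine ⟨128 * 2 ^ T₀ * (E + 1), 16 * 2 ^ T₀ * (16 * T₀ * (K + 2) + 8) + 16 * R + 1,
    by positivity, by positivity, ?_⟩
  intro n hn w hwq C hc hsub X hX hd
  have hn0 : 0 < n := by omega
  obtain ⟨lev, hlev⟩ := C.exists_lev K d X hd
  obtain ⟨th, θ, Θ, hθ1, hθ2, hθ3, hθ4, hth, hmid⟩ := C.thresholds K c d n X D hn0 lev hlev hc
  rw [← hM] at hθ4
  obtain ⟨r, hr⟩ : ∃ r, r = (c + 1) * θ := ⟨_, rfl⟩
  have hrR : r ≤ R := by
    rw [hr, hR]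
    exact Nat.mul_le_mul_left _ (hθ2.trans hθ4)
  have hr1 : 1 ≤ r := by
    rw [hr]
    exact Nat.mul_pos (Nat.succ_pos _) (by omega)
  have hkk : 2 ^ (16 * r ^ 2) * (2 * (n / (16 * 2 ^ (16 * r ^ 2)))) * 8 ≤ n := by
    calc 2 ^ (16 * r ^ 2) * (2 * (n / (16 * 2 ^ (16 * r ^ 2)))) * 8 =
          n / (16 * 2 ^ (16 * r ^ 2)) * (16 * 2 ^ (16 * r ^ 2)) := by ring
      _ ≤ n := Nat.div_mul_le_self _ _
  have hw1 : 1 ≤ max w 1 := le_max_right _ _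
  have hwq' : (max w 1) ^ (Nat.log 2 n + 1) ≤ 2 ^ (n / (128 * 2 ^ T₀ * (E + 1))) := by
    rcases le_total w 1 with h | h
    · rw [max_eq_right h, one_pow]
      exact Nat.one_le_two_pow
    · rw [max_eq_left h]
      exact hwq
  have hsub' : ∀ g, C.Big K g → SubLE (max w 1) (C.op g) :=
    fun g hg I => (hsub g hg I).trans (le_max_left _ _)
  obtain ⟨hL, hG, hs⟩ := C.core K (max w 1) c d r (n / (16 * 2 ^ (16 * r ^ 2))) X lev hw1 hsub'
    hlev hc th θ Θ hθ1 hth hmid hr (by omega) hkk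
  rw [hD, ← hr] at hθ3
  exact Final_num (K := K) (by positivity) hr1 hrR rfl hT₀ hE hw1 rfl rfl (by omega) hwq'
    hθ3 hL hG hX hs

theorem agree (d K c : ℕ) : ∃ q N : ℕ, 0 < q ∧ ∀ n ≥ N, ∀ w : ℕ,
    w ^ (Nat.log 2 n + 1) ≤ 2 ^ (n / q) → ∀ C : Circuit (Inp n), C.wires K ≤ c * n →
      (∀ g, C.Big K g → SubLE w (C.op g)) → ∀ X : Finset C.Gate, X.card ≤ n / q →
      C.SharingDepthLE K X d →
      ((univ.filter fun x : Inp n → Bool => C.val x C.out = hank x).card : ℝ) ≤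
        (1 / 2 + 1 / 2 ^ (n / q)) * 2 ^ (4 * n - 1) := by
  obtain ⟨q, N, hq, hN, h⟩ := corr d K c
  refine ⟨q, N, hq, fun n hn w hwq C hc hsub X hX hd => ?_⟩
  have h1 := h n hn w hwq C hc hsub X hX hd
  have hn0 : 0 < n := by omega
  have h2 : ∑ x : Inp n → Bool, sgn (C.val x C.out) * sgn (hank x) =
      2 * ((univ.filter fun x : Inp n → Bool => C.val x C.out = hank x).card : ℝ) -
        2 ^ (4 * n - 1) := by
    have h3 : ∀ x : Inp n → Bool, sgn (C.val x C.out) * sgn (hank x) =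
        2 * (if C.val x C.out = hank x then (1 : ℝ) else 0) - 1 := by
      intro x
      cases C.val x C.out <;> cases hank x <;> norm_num [sgn]
    rw [Finset.sum_congr rfl fun x _ => h3 x, Finset.sum_sub_distrib, ← Finset.mul_sum,
      Finset.sum_boole]
    have h4 : ∑ _x : Inp n → Bool, (1 : ℝ) = 2 ^ (4 * n - 1) := by
      rw [Finset.sum_const, Finset.card_univ, Fintype.card_fun, Fintype.card_bool]
      have h6 : Fintype.card (Inp n) = 4 * n - 1 := by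
        simp only [Inp, Fintype.card_sum, Fintype.card_fin]
        omega
      rw [h6]
      simp
    rw [h4]
  rw [h2] at h1
  set A : ℝ := ((univ.filter fun x : Inp n → Bool => C.val x C.out = hank x).card : ℝ) with hA
  set V : ℝ := 2 ^ (4 * n - 1) with hV
  set Q : ℝ := 2 ^ (n / q) with hQ
  have hQ0 : 0 < Q := by positivity
  have hV0 : 0 < V := by positivity
  have h5 : 2 * A - V ≤ V / Q := by
    rw [le_div_iff₀ hQ0]
    have := le_abs_self (2 * A - V)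
    nlinarith
  have h6 : V / Q = (1 / Q) * V := by ring
  have h7 : 0 ≤ V / Q := by positivity
  rw [h6] at h5 h7
  nlinarith

end Pool.Agent.Lib_MP_22d2c8_sym
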