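import Mathlib

/-!
# The hard function
-/

namespace Pool.Agent.Lib_MP_22d2c8_sym

open Finset

/-- The input variables: the bits `x_i`, `y_j` (`i, j < n`) and `t_u` (`u < 2 n - 1`). -/
abbrev Inp (n : ℕ) : Type := (Fin n ⊕ Fin n) ⊕ Fin (2 * n - 1)

/-- The index `i + j`. -/
def ad {n : ℕ} (i j : Fin n) : Fin (2 * n - 1) := ⟨i.1 + j.1, by omega⟩

/-- A bit as an element of the field with two elements. -/
def bit (a : Bool) : ZMod 2 := if a then 1 else 0

/-- The explicit function: `∑_(i, j) t_(i + j) x_i y_j` modulo `2`, that is the scalar product of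
`t` with the coefficients of the product of the polynomials `x` and `y`. -/
def hank {n : ℕ} (z : Inp n → Bool) : Bool :=
  decide (∑ i : Fin n, ∑ j : Fin n, bit (z (Sum.inr (ad i j))) * bit (z (Sum.inl (Sum.inl i))) *
    bit (z (Sum.inl (Sum.inr j))) = 1)

/-- The sign `(-1) ^ a`. -/
def sgn (a : Bool) : ℝ := if a then -1 else 1

/-- The sign of an element of the field with two elements. -/
def chi (z : ZMod 2) : ℝ := if z = 0 then 1 else -1

end Pool.Agent.Lib_MP_22d2c8_sym
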