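import Pool.Agent.Lib_MP_22d2c8_sym.Comp

/-!
# SYM-Gate: a gate with few subfunctions is evaluated by a program of small width, heavy child first

Proof of `gate`. Let `js` be the sorted list in the definition of `joinAll` (a permutation of
`List.finRange a`, every element has length at least that of the later ones).
If `(joinAll L).length = 0` then all `L s = []`, `wd = 1`, all `F s` are constant functions
(`Comp.isConst`), use `Comp.const`. Otherwise `js = h :: ts`. For a list `ps` put
`G ps x = sub f ps.toFinset (fun s => F s x)`, a function `(Fin a → Bool) → Bool`. Claim: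
`Comp rd ((h :: qs).flatMap L) M (G (h :: qs))` for every prefix `qs` of `ts` (or every `qs` whose elements are
in `ts`), `M = wd K w (joinAll L).length`, by induction on `qs` from the right:
* `qs = []`: `G [h] x` is determined by `F h x` (`Comp.of_det`), `wd` is monotone in the length (`1 ≤ w`);
* `qs ++ [j]`: `Comp.app` with `F₁ = G (h :: qs)` (at most `w` values by `SubLE`: take for `c` an injective
numbering of the finite set `univ.image (sub f I)`, `I = (h :: qs).toFinset`, by numbers `< w`), `F₂ = F j`;
`G (h :: qs ++ [j]) x` is determined by them, because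
`sub f (insert j I) u z = sub f I u (fun i => if i = j then u j else z i)`.
Widths: `2 * (L j).length ≤ (L h).length + (L j).length ≤ (joinAll L).length` for `j ∈ ts`, so
`w * wd K w (L j).length ≤ M` (if `(L j).length = 0` this is `w ≤ M`; otherwise
`Nat.log 2 (joinAll L).length ≥ Nat.log 2 (L j).length + 1`).
At the end `(h :: ts).toFinset = univ` and `f u = sub f univ u (fun _ => false)`: `Comp.of_det`.
-/

namespace Pool.Agent.Lib_MP_22d2c8_sym

open Finset

/-- The bound on the number of states for a list of length `l`. -/
def wd (K w l : ℕ) : ℕ := if l = 0 then 1 else 2 ^ (K + 1) * w ^ (Nat.log 2 l + 1)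

/-- The concatenation of the lists, the longest list first. -/
def joinAll {W : Type} {a : ℕ} (L : Fin a → List W) : List W :=
  ((List.finRange a).insertionSort (fun i j => (L j).length ≤ (L i).length)).flatMap L

private theorem perm_joinAllGate {W : Type} {a : ℕ} (L : Fin a → List W) :
    ((List.finRange a).insertionSort (fun i j => (L j).length ≤ (L i).length)).Perm
      (List.finRange a) :=
  List.perm_insertionSort _ _

theorem length_joinAll {W : Type} {a : ℕ} (L : Fin a → List W) :
    (joinAll L).length = ∑ s, (L s).length := by
  unfold joinAll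
  rw [List.length_flatMap, ((perm_joinAllGate L).map _).sum_eq]
  exact (Fin.sum_univ_def fun s => (L s).length).symm

theorem mem_joinAll {W : Type} {a : ℕ} (L : Fin a → List W) (v : W) :
    v ∈ joinAll L ↔ ∃ s, v ∈ L s := by
  unfold joinAll
  rw [List.mem_flatMap]
  constructor
  · rintro ⟨s, _, h⟩
    exact ⟨s, h⟩
  · rintro ⟨s, h⟩
    exact ⟨s, (perm_joinAllGate L).mem_iff.2 (List.mem_finRange s), h⟩

theorem wd_mono {K w l l' : ℕ} (hw : 1 ≤ w) (h : l ≤ l') : wd K w l ≤ wd K w l' := by
  unfold wd
  split_ifs with h1 h2 h2
  · exact le_rfl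
  · exact Nat.one_le_iff_ne_zero.2 (Nat.mul_ne_zero (by positivity)
      (pow_ne_zero _ (by omega)))
  · omega
  · exact Nat.mul_le_mul_left _ (Nat.pow_le_pow_right hw
      (Nat.add_le_add_right (Nat.log_mono_right h) 1))

private theorem wd_double_gate {K w l T : ℕ} (hw : 1 ≤ w) (hT : T ≠ 0) (h : 2 * l ≤ T) :
    w * wd K w l ≤ wd K w T := by
  have hT' : wd K w T = 2 ^ (K + 1) * w ^ (Nat.log 2 T + 1) := if_neg hT
  rw [hT']
  by_cases hl : l = 0
  · have h1 : wd K w l = 1 := if_pos hl
    rw [h1, mul_one]
    calc w = 1 * w ^ 1 := by ring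
      _ ≤ 2 ^ (K + 1) * w ^ (Nat.log 2 T + 1) :=
        Nat.mul_le_mul (Nat.one_le_two_pow) (Nat.pow_le_pow_right hw (by omega))
  · have h1 : wd K w l = 2 ^ (K + 1) * w ^ (Nat.log 2 l + 1) := if_neg hl
    rw [h1]
    have h2 : Nat.log 2 l + 1 ≤ Nat.log 2 T := by
      have h3 : Nat.log 2 (l * 2) = Nat.log 2 l + 1 := Nat.log_mul_base (by norm_num) hl
      rw [← h3]
      exact Nat.log_mono_right (by omega)
    calc w * (2 ^ (K + 1) * w ^ (Nat.log 2 l + 1)) = 2 ^ (K + 1) * w ^ (Nat.log 2 l + 1 + 1) := by
          ring
      _ ≤ 2 ^ (K + 1) * w ^ (Nat.log 2 T + 1) :=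
        Nat.mul_le_mul_left _ (Nat.pow_le_pow_right hw (by omega))

private theorem sub_insert_gate {a : ℕ} (f : (Fin a → Bool) → Bool) (I : Finset (Fin a))
    (j : Fin a) (u z : Fin a → Bool) :
    sub f (insert j I) u z = sub f I u (fun i => if i = j then u j else z i) := by
  unfold sub
  congr 1
  funext i
  by_cases h1 : i = j
  · subst h1
    simp
  · by_cases h2 : i ∈ I <;> simp [h1, h2]

private theorem prefix_gate {X W : Type} {rd : X → W → Bool} {w a M : ℕ}
    (f : (Fin a → Bool) → Bool) (hf : SubLE w f) (L : Fin a → List W) (F : Fin a → X → Bool)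
    (N : Fin a → ℕ) (h : ∀ s, Comp rd (L s) (N s) (F s)) (s₀ : Fin a) (h₀ : N s₀ ≤ M)
    (qs : List (Fin a)) (hq : ∀ j ∈ qs, w * N j ≤ M) :
    Comp rd ((s₀ :: qs).flatMap L) M (fun x => sub f (s₀ :: qs).toFinset (fun s => F s x)) := by
  classical
  induction qs using List.reverseRecOn with
  | nil =>
    have h1 : ([s₀] : List (Fin a)).flatMap L = L s₀ := by simp
    rw [h1]
    refine ((h s₀).mono h₀).of_det fun x y hxy => ?_
    funext z
    unfold sub
    congr 1
    funext i
    by_cases hi : i = s₀
    · subst hi
      simp [hxy]
    · simp [hi]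
  | append_singleton qs j ih =>
    have ih' := ih fun i hi => hq i (List.mem_append_left _ hi)
    have hj : w * N j ≤ M := hq j (by simp)
    set I := (s₀ :: qs).toFinset with hI
    have hI' : (s₀ :: (qs ++ [j])).toFinset = insert j I := by
      ext i
      simp only [hI, List.mem_toFinset, List.mem_cons, List.mem_append, Finset.mem_insert,
        List.not_mem_nil, or_false]
      tauto
    have hL : (s₀ :: (qs ++ [j])).flatMap L = (s₀ :: qs).flatMap L ++ L j := by
      simp
    rw [hI', hL]
    set S := univ.image (sub f I) with hS
    have hcard : S.card ≤ w := by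
      refine le_trans (le_of_eq ?_) (hf I)
      rw [hS]
    have hmem : ∀ x, sub f I (fun s => F s x) ∈ S := fun x =>
      Finset.mem_image.2 ⟨_, Finset.mem_univ _, rfl⟩
    let c : ((Fin a → Bool) → Bool) → ℕ := fun g =>
      if hg : g ∈ S then (S.equivFin ⟨g, hg⟩).1 else 0
    have hc : ∀ x, c (sub f I (fun s => F s x)) = (S.equivFin ⟨_, hmem x⟩).1 := fun x =>
      dif_pos (hmem x)
    have h2 := Comp.app (F := fun x => sub f (insert j I) (fun s => F s x)) (w := w) c
      (fun x => ?_) (fun x y hxy => ?_) ih' (h j) (fun x y h1 h2 => ?_)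
    · rwa [max_eq_left hj] at h2
    · rw [hc x]
      exact lt_of_lt_of_le (S.equivFin ⟨_, hmem x⟩).2 hcard
    · rw [hc x, hc y] at hxy
      have := S.equivFin.injective (Fin.ext hxy)
      exact congrArg Subtype.val this
    · funext z
      rw [sub_insert_gate, sub_insert_gate]
      change sub f I (fun s => F s x) (fun i => if i = j then F j x else z i) =
        sub f I (fun s => F s y) (fun i => if i = j then F j y else z i)
      have h1' : sub f I (fun s => F s x) = sub f I (fun s => F s y) := h1
      have h2' : F j x = F j y := h2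
      rw [h1', h2']

theorem Comp.gate {X W : Type} {rd : X → W → Bool} {K w a : ℕ} (hw : 1 ≤ w)
    (f : (Fin a → Bool) → Bool) (hf : SubLE w f) (L : Fin a → List W) (F : Fin a → X → Bool)
    (h : ∀ s, Comp rd (L s) (wd K w (L s).length) (F s)) :
    Comp rd (joinAll L) (wd K w (joinAll L).length) (fun x => f fun s => F s x) := by
  classical
  by_cases h0 : (joinAll L).length = 0
  · have hnil : joinAll L = [] := List.length_eq_zero_iff.1 h0
    have hL : ∀ s, L s = [] := by
      intro s
      rw [List.eq_nil_iff_forall_not_mem]
      intro v hv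
      have := (mem_joinAll L v).2 ⟨s, hv⟩
      rw [hnil] at this
      simp at this
    have hc : ∀ s x y, F s x = F s y := fun s => (h s).isConst (by
      intro v hv
      rw [hL s] at hv
      simp at hv)
    rw [hnil]
    refine Comp.const (by simp [wd]) fun x y => ?_
    congr 1
    funext s
    exact hc s x y
  · have hperm := perm_joinAllGate L
    have hsort : ((List.finRange a).insertionSort
        (fun i j => (L j).length ≤ (L i).length)).Pairwise
        (fun i j => (L j).length ≤ (L i).length) := by
      haveI : Std.Total (fun i j : Fin a => (L j).length ≤ (L i).length) :=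
        ⟨fun i j => Nat.le_total _ _⟩
      haveI : IsTrans (Fin a) (fun i j : Fin a => (L j).length ≤ (L i).length) :=
        ⟨fun i j k h1 h2 => le_trans h2 h1⟩
      exact List.pairwise_insertionSort _ _
    have hdef : joinAll L = ((List.finRange a).insertionSort
      (fun i j => (L j).length ≤ (L i).length)).flatMap L := rfl
    generalize hjs : (List.finRange a).insertionSort
      (fun i j => (L j).length ≤ (L i).length) = js at hperm hsort hdef
    cases js with
    | nil =>
      rw [hdef] at h0
      simp at h0
    | cons s₀ ts =>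
      have hT : (joinAll L).length = (L s₀).length + (ts.flatMap L).length := by
        rw [hdef]
        simp
      have hle : ∀ j ∈ ts, (L j).length ≤ (ts.flatMap L).length := by
        intro j hj
        rw [List.length_flatMap]
        exact List.le_sum_of_mem (List.mem_map.2 ⟨j, hj, rfl⟩)
      have hmax : ∀ j ∈ ts, (L j).length ≤ (L s₀).length := by
        intro j hj
        exact (List.pairwise_cons.1 hsort).1 j hj
      have hq : ∀ j ∈ ts, w * wd K w (L j).length ≤ wd K w (joinAll L).length := by
        intro j hj
        refine wd_double_gate hw h0 ?_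
        have h1 := hle j hj
        have h2 := hmax j hj
        omega
      have hp := prefix_gate (M := wd K w (joinAll L).length) f hf L F
        (fun s => wd K w (L s).length) h s₀ (wd_mono hw (by omega)) ts hq
      rw [← hdef] at hp
      refine hp.of_det fun x y hxy => ?_
      have hall : ∀ i : Fin a, i ∈ (s₀ :: ts).toFinset := by
        intro i
        rw [List.mem_toFinset]
        exact hperm.mem_iff.2 (List.mem_finRange i)
      have key : ∀ x, sub f (s₀ :: ts).toFinset (fun s => F s x) (fun _ => false) =
          f fun s => F s x := by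
        intro x
        unfold sub
        congr 1
        funext i
        rw [if_pos (hall i)]
      rw [← key x, ← key y]
      exact congrFun hxy _

end Pool.Agent.Lib_MP_22d2c8_sym
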