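import Pool.Agent.Lib_MP_22d2c8_sym.Seq

/-!
# Guess: the sign of a gate is a sum over guesses

`gval_true`: strong induction on `g` (`Fin` order, `C.src_lt`): the value of the gate is `C.op g` of
the values of its sources (`val_eq`, `gval_eq`), so it is enough that `gsrc = srcVal` on the sources of
`g`: for `Sum.inl` trivial; for `Sum.inr h`, `h < g`: `rval` is by cases `val x h` (small), `z h`
(guessed; `= gval h = val h` resp. `= val h` by hypothesis and induction), `gval h = val h` (induction).
`guess_sum`: exactly one `Z ⊆ guesseds` is consistent, `Z = guesseds.filter (val x · = true)`: if `Z` is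
consistent then by `gval_true` `gval = val`, so `g ∈ Z ↔ val x g = true` for `g ∈ guesseds`; conversely
for this `Z` the guess is the true value on the guessed gates and `gval = val` by `gval_val`.
Use `Finset.sum_eq_single`.
-/

namespace Pool.Agent.Lib_MP_22d2c8_sym

open Finset

namespace Circuit

variable {W U : Type} (C : Circuit (W ⊕ U)) (K : ℕ) (X : Finset C.Gate)
  (lev : C.Gate → ℕ) (th : ℕ → ℕ) (Θ : ℕ)

private theorem Guess_ind (z : C.Gate → Bool) (x : W ⊕ U → Bool)
    (h : ∀ g, C.Guessed K X lev th Θ g → C.gval K X lev th Θ z x g = C.val x g → z g = C.val x g)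
    (g : C.Gate) :
    C.gval K X lev th Θ z x g = C.val x g ∧ C.rval K X lev th Θ z x g = C.val x g := by
  induction g using (wellFounded_lt (α := C.Gate)).induction with
  | _ g ih =>
    have hs : ∀ s, C.gsrc K X lev th Θ z x (C.src g s) = C.srcVal x (C.src g s) := by
      intro s
      rcases e : C.src g s with v | h'
      · rfl
      · exact (ih h' (C.src_lt g s h' e)).2
    have h1 : C.gval K X lev th Θ z x g = C.val x g := by
      rw [gval_eq, val_eq]
      exact congrArg (C.op g) (funext hs)
    refine ⟨h1, ?_⟩
    unfold rval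
    split_ifs with h2 h3
    · rfl
    · exact h g h3 h1
    · exact h1

theorem gval_true (z : C.Gate → Bool) (x : W ⊕ U → Bool)
    (h : ∀ g, C.Guessed K X lev th Θ g → C.gval K X lev th Θ z x g = z g) (g : C.Gate) :
    C.gval K X lev th Θ z x g = C.val x g ∧ C.rval K X lev th Θ z x g = C.val x g :=
  C.Guess_ind K X lev th Θ z x (fun g hg h1 => (h g hg).symm.trans h1) g

theorem gval_val (z : C.Gate → Bool) (x : W ⊕ U → Bool)
    (h : ∀ g, C.Guessed K X lev th Θ g → z g = C.val x g) (g : C.Gate) :
    C.gval K X lev th Θ z x g = C.val x g ∧ C.rval K X lev th Θ z x g = C.val x g :=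
  C.Guess_ind K X lev th Θ z x (fun g hg _ => h g hg) g

open Classical in
theorem guess_sum (x : W ⊕ U → Bool) (o : C.Gate) :
    sgn (C.val x o) = ∑ Z ∈ (C.guesseds K X lev th Θ).powerset,
      if ∀ g ∈ C.guesseds K X lev th Θ, C.gval K X lev th Θ (fun h => decide (h ∈ Z)) x g = decide (g ∈ Z)
      then sgn (C.rval K X lev th Θ (fun h => decide (h ∈ Z)) x o) else 0 := by
  have hl : ∀ g, g ∈ C.guesseds K X lev th Θ ↔ C.Guessed K X lev th Θ g := by
    intro g
    unfold guesseds
    rw [mem_filter]
    exact ⟨fun h => h.2, fun h => ⟨mem_univ _, h⟩⟩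
  set Zs : Finset C.Gate := (C.guesseds K X lev th Θ).filter fun g => C.val x g = true with hZs
  have hz : ∀ g ∈ C.guesseds K X lev th Θ, decide (g ∈ Zs) = C.val x g := by
    intro g hg
    by_cases h : C.val x g = true
    · rw [h]
      exact decide_eq_true (mem_filter.2 ⟨hg, h⟩)
    · rw [Bool.not_eq_true] at h
      rw [h]
      refine decide_eq_false fun h' => ?_
      have := (mem_filter.1 h').2
      rw [h] at this
      exact absurd this (by decide)
  have hval := C.gval_val K X lev th Θ (fun h => decide (h ∈ Zs)) x
    (fun g hg => hz g ((hl g).2 hg))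
  rw [Finset.sum_eq_single Zs]
  · rw [if_pos, (hval o).2]
    intro g hg
    rw [(hval g).1]
    exact (hz g hg).symm
  · intro Z hZ hne
    rw [if_neg]
    intro hcons
    apply hne
    have ht := C.gval_true K X lev th Θ (fun h => decide (h ∈ Z)) x
      (fun g hg => hcons g ((hl g).2 hg))
    ext g
    constructor
    · intro hg
      have h1 := mem_powerset.1 hZ hg
      refine mem_filter.2 ⟨h1, ?_⟩
      rw [← (ht g).1, hcons g h1]
      exact decide_eq_true hg
    · intro hg
      obtain ⟨h1, h2⟩ := mem_filter.1 hg
      rw [← (ht g).1, hcons g h1] at h2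
      exact of_decide_eq_true h2
  · intro h
    exact absurd (mem_powerset.2 (filter_subset _ _)) h

end Circuit

end Pool.Agent.Lib_MP_22d2c8_sym
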