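import Pool.Agent.Lib_MP_22d2c8_sym.Seq

/-!
# Total length of the reading sequences of shared gates
-/

namespace Pool.Agent.Lib_MP_22d2c8_sym

open Finset

namespace Circuit

variable {W U : Type} (C : Circuit (W ⊕ U)) (K : ℕ) (X : Finset C.Gate)

open Classical in
/-- Two wires from an unshared gate to big gates coincide. -/
private theorem Mass_readers (G : Finset C.Gate) (hG : ∀ g ∈ G, C.Big K g) (h : C.Gate)
    (hs : ¬ C.Shared K h) :
    ((G.sigma fun g => (univ : Finset (Fin (C.arity g)))).filter
      fun p => C.src p.1 p.2 = Sum.inr h).card ≤ 1 := by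
  have h1 : ((G.sigma fun g => (univ : Finset (Fin (C.arity g)))).filter
      fun p => C.src p.1 p.2 = Sum.inr h) ⊆
      univ.filter fun p : (g : C.Gate) × Fin (C.arity g) =>
        C.Big K p.1 ∧ C.src p.1 p.2 = Sum.inr h := by
    intro p hp
    rw [mem_filter, mem_sigma] at hp
    exact mem_filter.2 ⟨mem_univ _, hG _ hp.1.1, hp.2⟩
  have h2 := Finset.card_le_card h1
  unfold Shared at hs
  omega

open Classical in
/-- The contribution of a source beyond `B`. -/
private noncomputable def Mass_f (lev : C.Gate → ℕ) (th : ℕ → ℕ) : (W ⊕ U) ⊕ C.Gate → ℕ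
  | Sum.inl _ => 0
  | Sum.inr h => if C.Big K h ∧ h ∉ X ∧ ¬ C.Shared K h then (C.seq K X lev th h).length else 0

open Classical in
private theorem Mass_src (lev : C.Gate → ℕ) (th : ℕ → ℕ) (B : ℕ) (hK : K + 1 ≤ B)
    (s : (W ⊕ U) ⊕ C.Gate)
    (hth : ∀ h, s = Sum.inr h → C.Big K h → h ∉ X → C.Shared K h → th (lev h) ≤ B) :
    (C.sseq K X lev th s).length ≤ B + C.Mass_f K X lev th s := by
  rcases s with (w | u) | h
  · simp only [sseq, List.length_singleton]
    omega
  · simp only [sseq, List.length_nil]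
    omega
  · simp only [sseq, rseq, Mass_f]
    by_cases hs : C.Small K h
    · rw [if_pos hs]
      have := C.loc_length K h
      omega
    · rw [if_neg hs]
      have hb : C.Big K h := hs
      by_cases hX : h ∈ X
      · rw [if_pos (Or.inl hX)]
        simp
      by_cases hsh : C.Shared K h
      · by_cases hc : th (lev h) < (C.seq K X lev th h).length
        · rw [if_pos (Or.inr ⟨hsh, hc⟩)]
          simp
        · rw [if_neg (fun hh => hh.elim hX (fun hh => hc hh.2))]
          have := hth h rfl hb hX hsh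
          omega
      · rw [if_neg (fun hh => hh.elim hX (fun hh => hsh hh.1)), if_pos ⟨hb, hX, hsh⟩]
        omega

open Classical in
private theorem Mass_le (lev : C.Gate → ℕ) (th : ℕ → ℕ) (B : ℕ) (hK : K + 1 ≤ B)
    (G O : Finset C.Gate) (hG : ∀ g ∈ G, C.Big K g)
    (hcl : ∀ g ∈ G, ∀ s h, C.src g s = Sum.inr h → C.Big K h → h ∉ X → h ∈ G)
    (hth : ∀ g ∈ G, ∀ s h, C.src g s = Sum.inr h → C.Big K h → h ∉ X → C.Shared K h →
      th (lev h) ≤ B)
    (hO : O ⊆ G) (hOs : ∀ o ∈ O, o ∉ X ∧ ¬ C.Shared K o)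
    (hOr : ∀ o ∈ O, ∀ g ∈ G, ∀ s, C.src g s ≠ Sum.inr o) :
    ∑ g ∈ G.filter (fun g => g ∈ X ∨ C.Shared K g), (C.seq K X lev th g).length +
      ∑ o ∈ O, (C.seq K X lev th o).length ≤ (∑ g ∈ G, C.arity g) * B := by
  set Q : Finset C.Gate := (G.filter (fun g => ¬ (g ∈ X ∨ C.Shared K g))) \ O with hQ
  have hpt : ∀ p ∈ G.sigma (fun g => (univ : Finset (Fin (C.arity g)))),
      C.Mass_f K X lev th (C.src p.1 p.2) ≤
      ∑ h ∈ Q, if C.src p.1 p.2 = Sum.inr h then (C.seq K X lev th h).length else 0 := by
    intro p hp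
    have hpG := (mem_sigma.1 hp).1
    rcases e : C.src p.1 p.2 with v | h
    · simp [Mass_f]
    · simp only [Mass_f]
      split_ifs with hh
      · have hhQ : h ∈ Q := by
          rw [hQ, mem_sdiff, mem_filter]
          exact ⟨⟨hcl _ hpG _ _ e hh.1 hh.2.1, fun h' => h'.elim hh.2.1 hh.2.2⟩,
            fun ho => hOr h ho _ hpG _ e⟩
        refine le_trans (le_of_eq ?_) (Finset.single_le_sum (f := fun h' =>
          if (Sum.inr h : (W ⊕ U) ⊕ C.Gate) = Sum.inr h' then (C.seq K X lev th h').length else 0)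
          (fun _ _ => Nat.zero_le _) hhQ)
        simp
      · exact Nat.zero_le _
  have hsum : ∑ p ∈ G.sigma (fun g => (univ : Finset (Fin (C.arity g)))),
      C.Mass_f K X lev th (C.src p.1 p.2) ≤ ∑ h ∈ Q, (C.seq K X lev th h).length := by
    refine le_trans (Finset.sum_le_sum hpt) ?_
    rw [Finset.sum_comm]
    refine Finset.sum_le_sum fun h hh => ?_
    rw [← Finset.sum_filter, Finset.sum_const, smul_eq_mul]
    have hns : ¬ C.Shared K h := by
      rw [hQ, mem_sdiff, mem_filter] at hh
      exact fun h' => hh.1.2 (Or.inr h')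
    have := C.Mass_readers K G hG h hns
    calc _ ≤ 1 * (C.seq K X lev th h).length := Nat.mul_le_mul_right _ this
      _ = _ := one_mul _
  have htot : ∑ g ∈ G, (C.seq K X lev th g).length ≤
      (∑ g ∈ G, C.arity g) * B + ∑ h ∈ Q, (C.seq K X lev th h).length := by
    have h1 : ∀ g ∈ G, (C.seq K X lev th g).length ≤
        C.arity g * B + ∑ s : Fin (C.arity g), C.Mass_f K X lev th (C.src g s) := by
      intro g hg
      rw [seq_eq, length_joinAll]
      have h2 : ∀ s : Fin (C.arity g), (C.sseq K X lev th (C.src g s)).length ≤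
          B + C.Mass_f K X lev th (C.src g s) :=
        fun s => C.Mass_src K X lev th B hK (C.src g s) (fun h e => hth g hg s h e)
      refine le_trans (Finset.sum_le_sum fun s _ => h2 s) ?_
      rw [Finset.sum_add_distrib, Finset.sum_const, Finset.card_univ, Fintype.card_fin,
        smul_eq_mul]
    refine le_trans (Finset.sum_le_sum h1) ?_
    rw [Finset.sum_add_distrib, ← Finset.sum_mul]
    refine Nat.add_le_add_left ?_ _
    rw [Finset.sum_sigma] at hsum
    exact hsum
  have hsplit := Finset.sum_filter_add_sum_filter_not G (fun g => g ∈ X ∨ C.Shared K g)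
    (fun g => (C.seq K X lev th g).length)
  have hOQ : ∑ h ∈ Q, (C.seq K X lev th h).length + ∑ o ∈ O, (C.seq K X lev th o).length =
      ∑ g ∈ G.filter (fun g => ¬ (g ∈ X ∨ C.Shared K g)), (C.seq K X lev th g).length := by
    rw [hQ]
    refine Finset.sum_sdiff ?_
    intro o ho
    exact mem_filter.2 ⟨hO ho, fun h' => h'.elim (hOs o ho).1 (hOs o ho).2⟩
  omega

theorem seq_congr {d : ℕ} {lev : C.Gate → ℕ} (hlev : C.IsLev K X d lev) (k : ℕ) (th th' : ℕ → ℕ)
    (h : ∀ l < k, th l = th' l) (g : C.Gate) (hg : C.Big K g) (hk : lev g ≤ k) :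
    C.seq K X lev th g = C.seq K X lev th' g := by
  classical
  induction g using WellFoundedLT.induction with
  | ind g ih =>
    have key : ∀ s, C.sseq K X lev th (C.src g s) = C.sseq K X lev th' (C.src g s) := by
      intro s
      rcases e : C.src g s with (w | u) | a
      · rfl
      · rfl
      · simp only [sseq, rseq]
        by_cases hs : C.Small K a
        · rw [if_pos hs, if_pos hs]
        · by_cases hX : a ∈ X
          · rw [if_neg hs, if_neg hs, if_pos (Or.inl hX), if_pos (Or.inl hX)]
          have hb : C.Big K a := hs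
          have hl := hlev.1 g s a hg hb hX e
          have hseq := ih a (C.src_lt g s a e) hb (le_trans hl.1 hk)
          rw [if_neg hs, if_neg hs, hseq]
          by_cases hsh : C.Shared K a
          · rw [h (lev a) (lt_of_lt_of_le (hl.2 hsh) hk)]
          · rw [if_neg (fun hh => hh.elim hX (fun hh => hsh hh.1)),
              if_neg (fun hh => hh.elim hX (fun hh => hsh hh.1))]
    rw [seq_eq, seq_eq]
    exact congrArg joinAll (funext key)

open Classical in
theorem mass {d : ℕ} {lev : C.Gate → ℕ} (hlev : C.IsLev K X d lev) (th : ℕ → ℕ) (B k : ℕ)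
    (hK : K + 1 ≤ B) (hB : ∀ l < k, th l ≤ B) :
    ∑ g ∈ univ.filter (fun g => C.Big K g ∧ g ∉ X ∧ C.Shared K g ∧ lev g ≤ k),
      (C.seq K X lev th g).length ≤ C.wires K * B := by
  have h1 := C.Mass_le K X lev th B hK (univ.filter fun g => C.Big K g ∧ lev g ≤ k) ∅
    (fun g hg => (mem_filter.1 hg).2.1)
    (fun g hg s a e ha haX => by
      have hg' := (mem_filter.1 hg).2
      exact mem_filter.2 ⟨mem_univ _, ha, le_trans (hlev.1 g s a hg'.1 ha haX e).1 hg'.2⟩)
    (fun g hg s a e ha haX hsh => by
      have hg' := (mem_filter.1 hg).2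
      exact hB _ (lt_of_lt_of_le ((hlev.1 g s a hg'.1 ha haX e).2 hsh) hg'.2))
    (Finset.empty_subset _) (by simp) (by simp)
  rw [Finset.sum_empty, add_zero, Finset.filter_filter] at h1
  have h2 : ∑ g ∈ univ.filter (fun g => C.Big K g ∧ lev g ≤ k), C.arity g ≤ C.wires K := by
    refine Finset.sum_le_sum_of_subset ?_
    intro g hg
    exact mem_filter.2 ⟨mem_univ _, (mem_filter.1 hg).2.1⟩
  have h3 : ∑ g ∈ univ.filter (fun g => C.Big K g ∧ g ∉ X ∧ C.Shared K g ∧ lev g ≤ k),
      (C.seq K X lev th g).length ≤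
      ∑ g ∈ univ.filter (fun g => (C.Big K g ∧ lev g ≤ k) ∧ (g ∈ X ∨ C.Shared K g)),
        (C.seq K X lev th g).length := by
    refine Finset.sum_le_sum_of_subset ?_
    intro g hg
    simp only [mem_filter, mem_univ, true_and] at hg ⊢
    tauto
  exact le_trans h3 (le_trans h1 (Nat.mul_le_mul_right _ h2))

open Classical in
theorem mass_out {d : ℕ} {lev : C.Gate → ℕ} (hlev : C.IsLev K X d lev) (th : ℕ → ℕ) (B : ℕ)
    (hK : K + 1 ≤ B) (hB : ∀ l < d, th l ≤ B) :
    ∑ g ∈ univ.filter (fun g => C.Big K g ∧ (g ∈ X ∨ C.Shared K g)),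
      (C.seq K X lev th g).length + (C.rseq K X lev th C.out).length ≤ C.wires K * B + K := by
  have hread : ∀ g s, C.src g s ≠ Sum.inr C.out := by
    intro g s e
    exact absurd (C.src_lt g s _ e) (not_lt.2 (Fin.le_last g))
  have hns : ¬ C.Shared K C.out := by
    intro hsh
    unfold Shared at hsh
    rw [Finset.filter_false_of_mem (fun p _ hp => hread _ _ hp.2), Finset.card_empty] at hsh
    omega
  have hmem : ∀ g, g ∈ univ.filter (fun g => C.Big K g) ↔ C.Big K g := by
    intro g
    simp
  have hle : ∀ O : Finset C.Gate, O ⊆ univ.filter (fun g => C.Big K g) →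
      (∀ o ∈ O, o = C.out ∧ o ∉ X) →
      ∑ g ∈ univ.filter (fun g => C.Big K g ∧ (g ∈ X ∨ C.Shared K g)),
        (C.seq K X lev th g).length + ∑ o ∈ O, (C.seq K X lev th o).length ≤ C.wires K * B := by
    intro O hO hO'
    have h1 := C.Mass_le K X lev th B hK (univ.filter fun g => C.Big K g) O
      (fun g hg => (hmem g).1 hg)
      (fun g _ s a _ ha _ => (hmem a).2 ha)
      (fun g _ s a _ ha haX hsh => hB _ (hlev.2 a ha haX hsh)) hO
      (fun o ho => by
        refine ⟨(hO' o ho).2, ?_⟩
        rw [(hO' o ho).1]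
        exact hns)
      (fun o ho g _ s => by
        rw [(hO' o ho).1]
        exact hread g s)
    rw [Finset.filter_filter] at h1
    exact h1
  by_cases hs : C.Small K C.out
  · have h1 := hle ∅ (Finset.empty_subset _) (by simp)
    rw [Finset.sum_empty, add_zero] at h1
    have h2 : (C.rseq K X lev th C.out).length ≤ K := by
      unfold rseq
      rw [if_pos hs]
      exact C.loc_length K _
    omega
  · by_cases hX : C.out ∈ X
    · have h1 := hle ∅ (Finset.empty_subset _) (by simp)
      rw [Finset.sum_empty, add_zero] at h1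
      have h2 : C.rseq K X lev th C.out = [] := by
        unfold rseq
        rw [if_neg hs, if_pos (Or.inl hX)]
      rw [h2, List.length_nil]
      omega
    · have h1 := hle {C.out} (Finset.singleton_subset_iff.2 ((hmem _).2 hs)) (by
        intro o ho
        rw [Finset.mem_singleton] at ho
        subst ho
        exact ⟨rfl, hX⟩)
      rw [Finset.sum_singleton] at h1
      have h2 : C.rseq K X lev th C.out = C.seq K X lev th C.out := by
        unfold rseq
        rw [if_neg hs, if_neg (fun hh => hh.elim hX (fun hh => hns hh.1))]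
      rw [h2]
      omega

end Circuit

end Pool.Agent.Lib_MP_22d2c8_sym
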