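import Pool.Agent.Lib_MP_22d2c8_sym.Gate

/-!
# Reading sequences of the gates, cut gates, guessed evaluation (definitions)

Parameters: `K`, a set `X` of deleted gates, a level function `lev` on the gates and thresholds `th`.
A big gate is cut if it is in `X`, or if it is shared and its reading sequence is longer than
`th (lev h)`. A reading sequence stops at cut gates, and at a small gate it lists the (at most `K`)
bits on which the small gate depends.
-/

namespace Pool.Agent.Lib_MP_22d2c8_sym

open Finset

namespace Circuit

variable {W U : Type} (C : Circuit (W ⊕ U)) (K : ℕ) (X : Finset C.Gate)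

/-- Level function for sharing depth `d`. -/
def IsLev (d : ℕ) (lev : C.Gate → ℕ) : Prop :=
  (∀ g s h, C.Big K g → C.Big K h → h ∉ X → C.src g s = Sum.inr h →
    lev h ≤ lev g ∧ (C.Shared K h → lev h < lev g)) ∧
  ∀ g, C.Big K g → g ∉ X → C.Shared K g → lev g < d

open Classical in
/-- The bits on which a small gate depends. -/
noncomputable def loc (h : C.Gate) : List W :=
  if hs : C.Small K h then (Classical.choose hs).toList else []

theorem loc_length (h : C.Gate) : (C.loc K h).length ≤ K := by
  unfold loc
  split_ifs with hs
  · rw [Finset.length_toList]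
    exact (Classical.choose_spec hs).1
  · exact Nat.zero_le _

theorem loc_det {h : C.Gate} (hs : C.Small K h) (x x' : W ⊕ U → Bool)
    (h₁ : ∀ v ∈ C.loc K h, x (Sum.inl v) = x' (Sum.inl v))
    (h₂ : ∀ u, x (Sum.inr u) = x' (Sum.inr u)) : C.val x h = C.val x' h := by
  refine (Classical.choose_spec hs).2 x x' (fun v hv => h₁ v ?_) h₂
  unfold loc
  rw [dif_pos hs]
  exact Finset.mem_toList.2 hv

variable (lev : C.Gate → ℕ) (th : ℕ → ℕ)

open Classical in
/-- The reading sequence of a gate. -/
noncomputable def seq : C.Gate → List W :=
  C.fold (Sum.elim (fun w => [w]) (fun _ => []))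
    (fun h l => if C.Small K h then C.loc K h
      else if h ∈ X ∨ (C.Shared K h ∧ th (lev h) < l.length) then [] else l)
    (fun _ l => joinAll l)

open Classical in
/-- The reading sequence of a gate as seen by its readers: empty for cut gates. -/
noncomputable def rseq (h : C.Gate) : List W :=
  if C.Small K h then C.loc K h
  else if h ∈ X ∨ (C.Shared K h ∧ th (lev h) < (C.seq K X lev th h).length) then []
  else C.seq K X lev th h

/-- The reading sequence of a source. -/
noncomputable def sseq : (W ⊕ U) ⊕ C.Gate → List W
  | Sum.inl (Sum.inl w) => [w]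
  | Sum.inl (Sum.inr _) => []
  | Sum.inr h => C.rseq K X lev th h

open Classical in
theorem seq_eq (g : C.Gate) : C.seq K X lev th g =
    joinAll fun s => C.sseq K X lev th (C.src g s) := by
  have h : ∀ s : (W ⊕ U) ⊕ C.Gate,
      C.look (Sum.elim (fun w => [w]) (fun _ => []))
        (fun h l => if C.Small K h then C.loc K h
          else if h ∈ X ∨ (C.Shared K h ∧ th (lev h) < l.length) then [] else l)
        (C.seq K X lev th) s = C.sseq K X lev th s := by
    intro s
    rcases s with (w | u) | h <;> rfl
  rw [seq, fold_eq]
  exact congrArg joinAll (funext fun s => h (C.src g s))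

variable (Θ : ℕ)

/-- Cut shared gates outside `X` whose reading sequence has length at most `Θ`. -/
def Mid (h : C.Gate) : Prop :=
  C.Big K h ∧ h ∉ X ∧ C.Shared K h ∧ th (lev h) < (C.seq K X lev th h).length ∧
    (C.seq K X lev th h).length ≤ Θ

/-- Cut shared gates outside `X` whose reading sequence is longer than `Θ`. -/
def Large (h : C.Gate) : Prop :=
  C.Big K h ∧ h ∉ X ∧ C.Shared K h ∧ th (lev h) < (C.seq K X lev th h).length ∧
    Θ < (C.seq K X lev th h).length

/-- Gates whose values are guessed. -/
def Guessed (h : C.Gate) : Prop := C.Big K h ∧ (h ∈ X ∨ C.Large K X lev th Θ h)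

open Classical in
/-- The mid gates. -/
noncomputable def mids : Finset C.Gate := univ.filter fun h => C.Mid K X lev th Θ h

open Classical in
/-- The large gates. -/
noncomputable def larges : Finset C.Gate := univ.filter fun h => C.Large K X lev th Θ h

open Classical in
/-- The guessed gates. -/
noncomputable def guesseds : Finset C.Gate := univ.filter fun h => C.Guessed K X lev th Θ h

open Classical in
/-- The value of a gate when the values of the guessed gates are replaced by the guess `z` and the
values of small gates are the true ones. -/
noncomputable def gval (z : C.Gate → Bool) (x : W ⊕ U → Bool) : C.Gate → Bool :=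
  C.fold x (fun h b => if C.Small K h then C.val x h
    else if C.Guessed K X lev th Θ h then z h else b) C.op

open Classical in
/-- The guessed value of a gate as seen by its readers. -/
noncomputable def rval (z : C.Gate → Bool) (x : W ⊕ U → Bool) (h : C.Gate) : Bool :=
  if C.Small K h then C.val x h
  else if C.Guessed K X lev th Θ h then z h else C.gval K X lev th Θ z x h

/-- The guessed value of a source. -/
noncomputable def gsrc (z : C.Gate → Bool) (x : W ⊕ U → Bool) : (W ⊕ U) ⊕ C.Gate → Bool
  | Sum.inl v => x v
  | Sum.inr h => C.rval K X lev th Θ z x h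

open Classical in
theorem gval_eq (z : C.Gate → Bool) (x : W ⊕ U → Bool) (g : C.Gate) :
    C.gval K X lev th Θ z x g = C.op g fun s => C.gsrc K X lev th Θ z x (C.src g s) := by
  have h : ∀ s : (W ⊕ U) ⊕ C.Gate,
      C.look x (fun h b => if C.Small K h then C.val x h
        else if C.Guessed K X lev th Θ h then z h else b) (C.gval K X lev th Θ z x) s =
      C.gsrc K X lev th Θ z x s := by
    intro s
    rcases s with v | h <;> rfl
  rw [gval, fold_eq]
  exact congrArg (C.op g) (funext fun s => h (C.src g s))

end Circuit

end Pool.Agent.Lib_MP_22d2c8_sym
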