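import Pool.Agent.Lib_MP_22d2c8_sym.Final

/-!
# Symmetric gates
-/

namespace Pool.Agent.Lib_MP_22d2c8_sym

open Finset

/-- A symmetric function of `a` arguments has at most `a + 1` subfunctions. -/
theorem Symm.subLE {a : ℕ} {f : (Fin a → Bool) → Bool} (hf : Symm f) : SubLE (a + 1) f := by
  classical
  intro I
  let cnt : (Fin a → Bool) → ℕ := fun u => (I.filter fun i => u i = true).card
  have key : ∀ u v : Fin a → Bool, cnt u = cnt v → sub f I u = sub f I v := by
    intro u v h
    funext z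
    unfold sub
    apply hf
    have h1 : ∀ u : Fin a → Bool, (univ.filter fun i => (if i ∈ I then u i else z i) = true).card =
        cnt u + (Iᶜ.filter fun i => z i = true).card := by
      intro u
      rw [← Finset.card_union_of_disjoint]
      · congr 1
        ext i
        simp only [Finset.mem_filter, Finset.mem_univ, true_and, Finset.mem_union,
          Finset.mem_compl]
        by_cases hi : i ∈ I <;> simp [hi]
      · rw [Finset.disjoint_left]
        intro i hi hi'
        simp only [Finset.mem_filter, Finset.mem_compl] at hi hi'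
        exact hi'.1 hi.1
    rw [h1 u, h1 v, h]
  have hle : ∀ u, cnt u ∈ Finset.range (a + 1) := by
    intro u
    rw [Finset.mem_range]
    have h1 : cnt u ≤ I.card := Finset.card_le_card (Finset.filter_subset _ _)
    have h2 : I.card ≤ a := by
      have := Finset.card_le_univ I
      rwa [Fintype.card_fin] at this
    omega
  have h3 : (univ.image (sub f I)).card ≤ (univ.image cnt).card := by
    have : ∀ g ∈ univ.image (sub f I), ∃ u, sub f I u = g := by
      intro g hg
      rw [Finset.mem_image] at hg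
      obtain ⟨u, _, hu⟩ := hg
      exact ⟨u, hu⟩
    choose! r hr using this
    refine Finset.card_le_card_of_injOn (fun g => cnt (r g)) ?_ ?_
    · intro g hg
      exact Finset.mem_coe.2 (Finset.mem_image.2 ⟨r g, Finset.mem_univ _, rfl⟩)
    · intro g hg g' hg' h
      rw [← hr g hg, ← hr g' hg']
      exact key _ _ h
  refine h3.trans ?_
  calc (univ.image cnt).card ≤ (Finset.range (a + 1)).card :=
        Finset.card_le_card fun m hm => by
          rw [Finset.mem_image] at hm
          obtain ⟨u, _, rfl⟩ := hm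
          exact hle u
    _ = a + 1 := Finset.card_range _

theorem poly_le (a b s q : ℕ) (hq : 0 < q) : ∃ N, ∀ n ≥ N, (a * n + b) ^ s ≤ 2 ^ (n / q) := by
  have ht := tendsto_pow_const_div_const_pow_of_one_lt s (r := (2 : ℝ)) (by norm_num)
  have hc : (0 : ℝ) < 1 / (2 * ((a * q + b : ℕ) : ℝ) ^ s + 1) := by positivity
  have hev := ht.eventually (gt_mem_nhds hc)
  rw [Filter.eventually_atTop] at hev
  obtain ⟨M, hM⟩ := hev
  refine ⟨q * M, fun n hn => ?_⟩
  have h1 : M ≤ n / q := by
    rw [Nat.le_div_iff_mul_le hq, mul_comm]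
    exact hn
  set m := n / q with hm
  have h2 : n ≤ q * (m + 1) := by
    have := Nat.lt_mul_div_succ n hq
    rw [← hm] at this
    exact this.le
  have h3 : a * n + b ≤ (a * q + b) * (m + 1) := by
    calc a * n + b ≤ a * (q * (m + 1)) + b * (m + 1) := by
          apply Nat.add_le_add (Nat.mul_le_mul_left _ h2)
          exact Nat.le_mul_of_pos_right _ (Nat.succ_pos _)
      _ = (a * q + b) * (m + 1) := by ring
  have h4 := hM (m + 1) (by omega)
  rw [div_lt_div_iff₀ (by positivity) (by positivity), one_mul] at h4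
  have h5 : ((m + 1 : ℕ) : ℝ) ^ s * (2 * ((a * q + b : ℕ) : ℝ) ^ s) ≤ 2 ^ (m + 1) := by
    have h6 : (0 : ℝ) ≤ ((m + 1 : ℕ) : ℝ) ^ s := by positivity
    nlinarith
  have h7 : ((a * q + b : ℕ) : ℝ) ^ s * ((m + 1 : ℕ) : ℝ) ^ s ≤ 2 ^ m := by
    rw [pow_succ] at h5
    nlinarith
  have h8 : (a * q + b) ^ s * (m + 1) ^ s ≤ 2 ^ m := by exact_mod_cast h7
  calc (a * n + b) ^ s ≤ ((a * q + b) * (m + 1)) ^ s := Nat.pow_le_pow_left h3 s
    _ = (a * q + b) ^ s * (m + 1) ^ s := mul_pow _ _ _
    _ ≤ 2 ^ m := h8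


/-- Main theorem: big gates are symmetric, or have at most `w` subfunctions. -/
theorem agree_symm (d K c : ℕ) : ∃ q N : ℕ, 0 < q ∧ ∀ n ≥ N, ∀ w : ℕ,
    w ^ (Nat.log 2 n + 1) ≤ 2 ^ (n / q) → ∀ C : Circuit (Inp n), C.wires K ≤ c * n →
      (∀ g, C.Big K g → Symm (C.op g) ∨ SubLE w (C.op g)) →
      ∀ X : Finset C.Gate, X.card ≤ n / q → C.SharingDepthLE K X d →
      ((univ.filter fun x : Inp n → Bool => C.val x C.out = hank x).card : ℝ) ≤
        (1 / 2 + 1 / 2 ^ (n / q)) * 2 ^ (4 * n - 1) := by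
  classical
  obtain ⟨q, N, hq, h⟩ := agree d K c
  obtain ⟨M, hM⟩ := poly_le q (q * (c + 2)) 2 1 Nat.one_pos
  refine ⟨q, N + 2 ^ M, hq, fun n hn w hw C hc hsub X hX hd => ?_⟩
  have hn0 : n ≠ 0 := by
    have : 0 < 2 ^ M := by positivity
    omega
  obtain ⟨m, hm⟩ : ∃ m, m = Nat.log 2 n := ⟨_, rfl⟩
  have hmM : M ≤ m := by
    rw [hm]
    exact Nat.le_log_of_pow_le (by norm_num) (by omega)
  have hn1 : 2 ^ m ≤ n := by
    rw [hm]
    exact Nat.pow_log_le_self 2 hn0
  have hn2 : n < 2 ^ (m + 1) := by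
    rw [hm]
    exact Nat.lt_pow_succ_log_self (by norm_num) n
  have hbase : c * n + 1 ≤ 2 ^ (m + c + 2) := by
    have h1 : c + 1 ≤ 2 ^ (c + 1) := (Nat.lt_two_pow_self (n := c + 1)).le
    calc c * n + 1 ≤ (c + 1) * 2 ^ (m + 1) := by nlinarith [Nat.one_le_two_pow (n := m + 1)]
      _ ≤ 2 ^ (c + 1) * 2 ^ (m + 1) := Nat.mul_le_mul_right _ h1
      _ = 2 ^ (m + c + 2) := by
          rw [← pow_add]
          congr 1
          ring
  have hexp : (m + c + 2) * (m + 1) ≤ n / q := by
    rw [Nat.le_div_iff_mul_le hq]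
    have h1 := hM m hmM
    rw [Nat.div_one] at h1
    have h2 : (m + c + 2) * (m + 1) * q ≤ (q * m + q * (c + 2)) ^ 2 := by
      have e : (q * m + q * (c + 2)) ^ 2 = q * (m + c + 2) * (q * (m + c + 2)) := by ring
      rw [e]
      have h3 : m + 1 ≤ q * (m + c + 2) := by nlinarith
      calc (m + c + 2) * (m + 1) * q = q * (m + c + 2) * (m + 1) := by ring
        _ ≤ q * (m + c + 2) * (q * (m + c + 2)) := Nat.mul_le_mul_left _ h3
    omega
  have hsymm : (c * n + 1) ^ (Nat.log 2 n + 1) ≤ 2 ^ (n / q) := by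
    rw [← hm]
    calc (c * n + 1) ^ (m + 1) ≤ (2 ^ (m + c + 2)) ^ (m + 1) := Nat.pow_le_pow_left hbase _
      _ = 2 ^ ((m + c + 2) * (m + 1)) := (pow_mul _ _ _).symm
      _ ≤ 2 ^ (n / q) := Nat.pow_le_pow_right (by norm_num) hexp
  have hmax : (max w (c * n + 1)) ^ (Nat.log 2 n + 1) ≤ 2 ^ (n / q) := by
    rcases le_total w (c * n + 1) with h1 | h1
    · rw [max_eq_right h1]
      exact hsymm
    · rw [max_eq_left h1]
      exact hw
  refine h n (le_trans (Nat.le_add_right _ _) hn) (max w (c * n + 1)) hmax C hc (fun g hg => ?_) X hX hd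
  rcases hsub g hg with h1 | h1
  · intro I
    refine (h1.subLE I).trans (le_trans ?_ (le_max_right _ _))
    have h2 : C.arity g ≤ C.wires K := by
      unfold Circuit.wires
      exact Finset.single_le_sum (f := fun g => C.arity g) (fun _ _ => Nat.zero_le _)
        (Finset.mem_filter.2 ⟨Finset.mem_univ _, hg⟩)
    omega
  · intro I
    exact (h1 I).trans (le_max_left _ _)

end Pool.Agent.Lib_MP_22d2c8_sym
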